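import Mathlib
import Pool.Agent.Helper49.FTestDefs

/-! Support lemma for functionals of finite order (for helper49, MP_f1c2ec_an). -/

set_option autoImplicit false

namespace Pool.Agent.Helper49.FA

open MeasureTheory Set Filter Topology Complex
open scoped ContDiff ComplexConjugate

variable {ι : Type*} [Fintype ι]

/-- a continuous family of derivatives is bounded on a compact set, uniformly for `i ≤ M`. -/
theorem exists_bound_iteratedFDeriv {E F : Type*} [NormedAddCommGroup E] [NormedSpace ℝ E]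
    [NormedAddCommGroup F] [NormedSpace ℝ F] {f : E → F} (hf : ContDiff ℝ ∞ f) {K : Set E}
    (hK : IsCompact K) (M : ℕ) :
    ∃ C : ℝ, 0 ≤ C ∧ ∀ i ≤ M, ∀ x ∈ K, ‖iteratedFDeriv ℝ i f x‖ ≤ C := by
  induction M with
  | zero =>
    have hc : ContinuousOn (iteratedFDeriv ℝ 0 f) K :=
      (hf.continuous_iteratedFDeriv (m := 0) (by simp)).continuousOn
    obtain ⟨C, hC⟩ := hK.exists_bound_of_continuousOn hc
    refine ⟨max C 0, le_max_right _ _, fun i hi x hx => ?_⟩
    obtain rfl : i = 0 := by omega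
    exact (hC x hx).trans (le_max_left _ _)
  | succ M ih =>
    obtain ⟨C₁, h₁, hC₁⟩ := ih
    have hc : ContinuousOn (iteratedFDeriv ℝ (M + 1) f) K :=
      (hf.continuous_iteratedFDeriv (m := M + 1) (by exact_mod_cast le_top)).continuousOn
    obtain ⟨C, hC⟩ := hK.exists_bound_of_continuousOn hc
    refine ⟨max C C₁, h₁.trans (le_max_right _ _), fun i hi x hx => ?_⟩
    rcases Nat.lt_or_ge i (M + 1) with h | h
    · exact (hC₁ i (by omega) x hx).trans (le_max_right _ _)
    · obtain rfl : i = M + 1 := by omega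
      exact (hC x hx).trans (le_max_left _ _)

theorem IsDist.zero {W : ((ι → ℝ) → ℂ) → ℂ} {M : ℕ} (hW : IsDist W M) : W (fun _ => 0) = 0 := by
  have h := hW.smul 0 (fun _ => 0) ⟨contDiff_const, HasCompactSupport.zero⟩
  simpa using h

theorem IsDist.sum {W : ((ι → ℝ) → ℂ) → ℂ} {M : ℕ} (hW : IsDist W M) {α : Type*} (s : Finset α)
    (φ : α → (ι → ℝ) → ℂ) (hφ : ∀ a ∈ s, Tst (φ a)) :
    Tst (fun θ => ∑ a ∈ s, φ a θ) ∧ W (fun θ => ∑ a ∈ s, φ a θ) = ∑ a ∈ s, W (φ a) := by
  classical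
  induction s using Finset.induction_on with
  | empty =>
    simp only [Finset.sum_empty]
    exact ⟨⟨contDiff_const, HasCompactSupport.zero⟩, hW.zero⟩
  | insert a s ha ih =>
    obtain ⟨h1, h2⟩ := ih (fun b hb => hφ b (Finset.mem_insert_of_mem hb))
    have h3 := hφ a (Finset.mem_insert_self a s)
    have h4 : (fun θ => ∑ b ∈ insert a s, φ b θ) = fun θ => φ a θ + ∑ b ∈ s, φ b θ := by
      funext θ
      rw [Finset.sum_insert ha]
    rw [h4, Finset.sum_insert ha]
    refine ⟨⟨h3.1.add h1.1, h3.2.add h1.2⟩, ?_⟩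
    rw [hW.add _ _ h3 h1, h2]

/-- the key estimate: homogeneous smooth functions of `g` of degree `M + 1`. -/
theorem supp_hom {W : ((ι → ℝ) → ℂ) → ℂ} {M : ℕ} (hW : IsDist W M)
    {g : (ι → ℝ) → ℂ} (hg : ContDiff ℝ ∞ g)
    (h0 : ∀ φ, Tst φ → (∀ θ ∈ tsupport φ, g θ ≠ 0) → W φ = 0) {φ : (ι → ℝ) → ℂ} (hφ : Tst φ)
    {P : ℂ → ℂ} (hP : ContDiff ℝ ∞ P)
    (hom : ∀ (ε : ℝ) (w : ℂ), P ((ε : ℂ) * w) = (ε : ℂ) ^ (M + 1) * P w) :
    W (fun θ => P (g θ) * φ θ) = 0 := by
  classical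
  -- the cutoff
  let b : ContDiffBump (0 : ℂ) := ⟨1, 2, one_pos, one_lt_two⟩
  let χ : ℂ → ℂ := fun w => ((b w : ℝ) : ℂ)
  have hχ : ContDiff ℝ ∞ χ := ofRealCLM.contDiff.comp b.contDiff
  have hχ1 : ∀ w : ℂ, ‖w‖ ≤ 1 → χ w = 1 := by
    intro w hw
    have := b.one_of_mem_closedBall (x := w) (by simpa [b] using hw)
    simp [χ, this]
  let H : ℂ → ℂ := fun w => P w * χ w
  have hH : ContDiff ℝ ∞ H := hP.mul hχ
  have hHc : HasCompactSupport H := by
    have : HasCompactSupport χ := b.hasCompactSupport.comp_left (g := fun r : ℝ => (r : ℂ)) (by simp)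
    exact this.mul_left
  -- bounds
  obtain ⟨CH, hCH0, hCH⟩ : ∃ C : ℝ, 0 ≤ C ∧ ∀ i ≤ M, ∀ w, ‖iteratedFDeriv ℝ i H w‖ ≤ C := by
    obtain ⟨C, hC0, hC⟩ := exists_bound_iteratedFDeriv hH (K := tsupport H) hHc M
    refine ⟨C, hC0, fun i hi w => ?_⟩
    by_cases hw : w ∈ tsupport H
    · exact hC i hi w hw
    · have : iteratedFDeriv ℝ i H w = 0 := by
        by_contra h
        exact hw (support_iteratedFDeriv_subset i h)
      rw [this, norm_zero]
      exact hC0
  obtain ⟨Cg, hCg0, hCg⟩ := exists_bound_iteratedFDeriv hg (K := tsupport φ) hφ.2 M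
  obtain ⟨Cφ, hCφ0, hCφ⟩ := exists_bound_iteratedFDeriv hφ.1 (K := tsupport φ) hφ.2 M
  obtain ⟨R, hR⟩ : ∃ R : ℝ, ∀ θ, R < ‖θ‖ → φ θ = 0 := by
    obtain ⟨R, hR⟩ := hφ.2.isBounded.exists_norm_le
    refine ⟨R, fun θ hθ => ?_⟩
    by_contra h
    exact absurd (hR θ (subset_tsupport φ h)) (not_le.mpr hθ)
  obtain ⟨C, hC0, hC⟩ := hW.order R
  -- the auxiliary functions
  have key : ∀ ε : ℝ, 0 < ε → ε ≤ 1 →
      ‖W (fun θ => P (g θ) * φ θ)‖ ≤ C * (ε * ((2 : ℝ) ^ M * (M.factorial * CH * (Cg + 1) ^ M) * Cφ)) := by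
    intro ε hε hε1
    have hεc : (ε : ℂ) ≠ 0 := by exact_mod_cast hε.ne'
    let k : (ι → ℝ) → ℂ := fun θ => ((ε⁻¹ : ℝ) : ℂ) * g θ
    have hk : ContDiff ℝ ∞ k := contDiff_const.mul hg
    let F : (ι → ℝ) → ℂ := fun θ => (ε : ℂ) ^ (M + 1) * (H (k θ) * φ θ)
    have hHk : ContDiff ℝ ∞ (fun θ => H (k θ)) := hH.comp hk
    have hTF : Tst (fun θ => H (k θ) * φ θ) := ⟨hHk.mul hφ.1, hφ.2.mul_left⟩
    have hFT : Tst F := ⟨contDiff_const.mul hTF.1, hTF.2.mul_left⟩
    have hFeq : ∀ θ, F θ = P (g θ) * χ (k θ) * φ θ := by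
      intro θ
      have h1 : P (g θ) = (ε : ℂ) ^ (M + 1) * P (k θ) := by
        rw [← hom]
        congr 1
        simp only [k]
        push_cast
        field_simp
      simp only [F, H]
      rw [h1]
      ring
    -- the difference
    have hDT : Tst (fun θ => P (g θ) * (1 - χ (k θ)) * φ θ) :=
      ⟨((hP.comp hg).mul (contDiff_const.sub (hχ.comp hk))).mul hφ.1, hφ.2.mul_left⟩
    have hD0 : W (fun θ => P (g θ) * (1 - χ (k θ)) * φ θ) = 0 := by
      apply h0 _ hDT
      intro θ hθ hgθ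
      have hcl : IsClosed {θ : ι → ℝ | ε ≤ ‖g θ‖} := isClosed_le continuous_const hg.continuous.norm
      have hsub : tsupport (fun θ => P (g θ) * (1 - χ (k θ)) * φ θ) ⊆ {θ : ι → ℝ | ε ≤ ‖g θ‖} := by
        apply closure_minimal _ hcl
        intro θ' hθ'
        by_contra hlt
        simp only [mem_ofPred_eq, not_le] at hlt
        apply hθ'
        have : χ (k θ') = 1 := by
          apply hχ1
          simp only [k, norm_mul, norm_real, norm_inv, Real.norm_eq_abs, abs_of_pos hε]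
          rw [inv_mul_le_iff₀ hε, mul_one]
          exact hlt.le
        simp [this]
      have := hsub hθ
      simp only [mem_ofPred_eq, hgθ, norm_zero] at this
      linarith
    have hsplit : W (fun θ => P (g θ) * φ θ) = W F := by
      have h1 : (fun θ => P (g θ) * φ θ) = fun θ => F θ + P (g θ) * (1 - χ (k θ)) * φ θ := by
        funext θ
        rw [hFeq θ]
        ring
      rw [h1, hW.add _ _ hFT hDT, hD0, add_zero]
    rw [hsplit]
    apply hC F _ hFT
    · intro θ hθ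
      simp only [F, hR θ hθ, mul_zero]
    intro i hi θ
    have hiN : ((i : ℕ) : WithTop ℕ∞) ≤ ∞ := by exact_mod_cast le_top
    have hF1 : iteratedFDeriv ℝ i F θ = ((ε : ℂ) ^ (M + 1)) • iteratedFDeriv ℝ i (fun θ => H (k θ) * φ θ) θ := by
      have : F = fun θ => ((ε : ℂ) ^ (M + 1)) • (H (k θ) * φ θ) := by
        funext θ
        simp [F]
      rw [this]
      exact iteratedFDeriv_const_smul_apply' ((hTF.1.contDiffAt).of_le hiN)
    by_cases hθ : θ ∈ tsupport φ
    · have hcomp : ∀ j ≤ i, ‖iteratedFDeriv ℝ j (fun θ => H (k θ)) θ‖ ≤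
          M.factorial * CH * ((Cg + 1) / ε) ^ M := by
        intro j hj
        have hjM : j ≤ M := hj.trans hi
        have hjN : ((j : ℕ) : WithTop ℕ∞) ≤ ∞ := by exact_mod_cast le_top
        have hD1 : 1 ≤ (Cg + 1) / ε := by
          rw [le_div_iff₀ hε]
          linarith
        have h1 := norm_iteratedFDeriv_comp_le hH hk hjN θ (C := CH) (D := (Cg + 1) / ε)
          (fun m hm => hCH m (hm.trans hjM) _)
          (fun m hm1 hm => by
            have h2 : iteratedFDeriv ℝ m k θ = ((ε⁻¹ : ℝ) : ℂ) • iteratedFDeriv ℝ m g θ := by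
              have : k = fun θ => ((ε⁻¹ : ℝ) : ℂ) • g θ := by
                funext θ
                simp [k]
              rw [this]
              exact iteratedFDeriv_const_smul_apply' ((hg.contDiffAt).of_le (by exact_mod_cast le_top))
            rw [h2, norm_smul, norm_real, norm_inv, Real.norm_eq_abs, abs_of_pos hε]
            calc ε⁻¹ * ‖iteratedFDeriv ℝ m g θ‖ ≤ ε⁻¹ * (Cg + 1) := by
                  apply mul_le_mul_of_nonneg_left _ (inv_nonneg.mpr hε.le)
                  linarith [hCg m (hm.trans hjM) θ hθ]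
              _ = (Cg + 1) / ε := by ring
              _ ≤ ((Cg + 1) / ε) ^ m := le_self_pow₀ hD1 (by omega))
        refine h1.trans ?_
        have hD0' : 0 ≤ (Cg + 1) / ε := by positivity
        have hfac : (j.factorial : ℝ) ≤ M.factorial := by exact_mod_cast Nat.factorial_le hjM
        have hpow : ((Cg + 1) / ε) ^ j ≤ ((Cg + 1) / ε) ^ M := pow_le_pow_right₀ hD1 hjM
        gcongr
      have hprod := norm_iteratedFDeriv_mul_le hHk hφ.1 θ hiN
      have hsum : ‖iteratedFDeriv ℝ i (fun θ => H (k θ) * φ θ) θ‖ ≤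
          2 ^ M * (M.factorial * CH * ((Cg + 1) / ε) ^ M) * Cφ := by
        refine hprod.trans ?_
        calc ∑ m ∈ Finset.range (i + 1), (i.choose m : ℝ) * ‖iteratedFDeriv ℝ m (fun θ => H (k θ)) θ‖ *
              ‖iteratedFDeriv ℝ (i - m) φ θ‖
            ≤ ∑ m ∈ Finset.range (i + 1), (i.choose m : ℝ) * (M.factorial * CH * ((Cg + 1) / ε) ^ M) * Cφ := by
              apply Finset.sum_le_sum
              intro m hm
              rw [Finset.mem_range] at hm
              have h1 := hcomp m (by omega)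
              have h2 := hCφ (i - m) (by omega) θ hθ
              gcongr
          _ = (2 : ℝ) ^ i * (M.factorial * CH * ((Cg + 1) / ε) ^ M) * Cφ := by
              rw [← Finset.sum_mul, ← Finset.sum_mul]
              congr 2
              exact_mod_cast Nat.sum_range_choose i
          _ ≤ 2 ^ M * (M.factorial * CH * ((Cg + 1) / ε) ^ M) * Cφ := by
              have : (2 : ℝ) ^ i ≤ 2 ^ M := pow_le_pow_right₀ one_le_two hi
              gcongr
      rw [hF1, norm_smul, norm_pow, norm_real, Real.norm_eq_abs, abs_of_pos hε]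
      calc ε ^ (M + 1) * ‖iteratedFDeriv ℝ i (fun θ => H (k θ) * φ θ) θ‖
          ≤ ε ^ (M + 1) * (2 ^ M * (M.factorial * CH * ((Cg + 1) / ε) ^ M) * Cφ) := by gcongr
        _ = ε * ((2 : ℝ) ^ M * (M.factorial * CH * (Cg + 1) ^ M) * Cφ) := by
            rw [div_pow]
            field_simp
            ring
    · have h1 : iteratedFDeriv ℝ i F θ = 0 := by
        by_contra h
        apply hθ
        have h2 := support_iteratedFDeriv_subset i h
        refine closure_mono ?_ h2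
        intro θ' hθ'
        simp only [Function.mem_support, F] at hθ' ⊢
        intro h3
        apply hθ'
        rw [h3]
        ring
      rw [h1, norm_zero]
      positivity
  -- let `ε → 0`
  have hlim : Tendsto (fun ε : ℝ => C * (ε * ((2 : ℝ) ^ M * (M.factorial * CH * (Cg + 1) ^ M) * Cφ)))
      (𝓝[>] 0) (𝓝 0) := by
    have : Tendsto (fun ε : ℝ => C * (ε * ((2 : ℝ) ^ M * (M.factorial * CH * (Cg + 1) ^ M) * Cφ)))
        (𝓝 0) (𝓝 (C * (0 * ((2 : ℝ) ^ M * (M.factorial * CH * (Cg + 1) ^ M) * Cφ)))) :=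
      (tendsto_id.mul_const _).const_mul C
    simp only [zero_mul, mul_zero] at this
    exact this.mono_left nhdsWithin_le_nhds
  have hfin : ‖W (fun θ => P (g θ) * φ θ)‖ ≤ 0 := by
    apply ge_of_tendsto hlim
    filter_upwards [Ioc_mem_nhdsGT (show (0 : ℝ) < 1 from one_pos)] with ε hε
    exact key ε hε.1 hε.2
  simpa using hfin

theorem supp_pow {W : ((ι → ℝ) → ℂ) → ℂ} {M : ℕ} (hW : IsDist W M)
    {g : (ι → ℝ) → ℂ} (hg : ContDiff ℝ ∞ g)
    (h0 : ∀ φ, Tst φ → (∀ θ ∈ tsupport φ, g θ ≠ 0) → W φ = 0) {φ : (ι → ℝ) → ℂ} (hφ : Tst φ) :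
    W (fun θ => g θ ^ (M + 1) * φ θ) = 0 ∧ W (fun θ => conj (g θ) ^ (M + 1) * φ θ) = 0 := by
  constructor
  · exact supp_hom hW hg h0 hφ (P := fun w => w ^ (M + 1)) (contDiff_id.pow _)
      (fun ε w => by rw [mul_pow])
  · exact supp_hom hW hg h0 hφ (P := fun w => conj w ^ (M + 1))
      ((conjCLE.contDiff (n := ∞) (𝕜 := ℝ)).pow _) (fun ε w => by rw [map_mul, conj_ofReal, mul_pow])

theorem eq_zero_of_not_inSupp {W : ((ι → ℝ) → ℂ) → ℂ} {M : ℕ} (hW : IsDist W M)
    {φ : (ι → ℝ) → ℂ} (hφ : Tst φ) (h : ∀ x ∈ tsupport φ, ¬ InSupp W x) : W φ = 0 := by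
  classical
  have h' : ∀ x ∈ tsupport φ, ∃ ε : ℝ, 0 < ε ∧ ∀ ψ : (ι → ℝ) → ℂ, Tst ψ →
      (∀ θ, ε < ‖θ - x‖ → ψ θ = 0) → W ψ = 0 := by
    intro x hx
    have := h x hx
    unfold InSupp at this
    push Not at this
    exact this
  choose! ε hε hεW using h'
  obtain ⟨t, ht, htc⟩ := hφ.2.elim_nhds_subcover (fun x => Metric.ball x (ε x))
    (fun x hx => Metric.ball_mem_nhds x (hε x hx))
  obtain ⟨f, hf⟩ := SmoothPartitionOfUnity.exists_isSubordinate (modelWithCornersSelf ℝ (ι → ℝ))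
    (isClosed_tsupport φ) (fun x : t => Metric.ball (x : ι → ℝ) (ε x)) (fun x => Metric.isOpen_ball)
    (by
      intro y hy
      have := htc hy
      simp only [mem_iUnion] at this ⊢
      obtain ⟨x, hx, hy⟩ := this
      exact ⟨⟨x, hx⟩, hy⟩)
  have hfs : ∀ x : t, ContDiff ℝ ∞ (f x) := fun x => (f x).contMDiff.contDiff
  have hfφ : ∀ x : t, Tst (fun θ => (f x θ : ℂ) * φ θ) := fun x =>
    ⟨(ofRealCLM.contDiff.comp (hfs x)).mul hφ.1, hφ.2.mul_left⟩
  have hsum := hW.sum Finset.univ (fun (x : t) θ => (f x θ : ℂ) * φ θ) (fun x _ => hfφ x)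
  have heq : (fun θ => ∑ x : t, (f x θ : ℂ) * φ θ) = φ := by
    funext θ
    by_cases hθ : θ ∈ tsupport φ
    · rw [← Finset.sum_mul]
      have h1 := f.sum_eq_one hθ
      rw [finsum_eq_sum_of_fintype] at h1
      have h2 : ∑ x : t, ((f x θ : ℝ) : ℂ) = 1 := by exact_mod_cast h1
      rw [h2, one_mul]
    · have h1 : φ θ = 0 := image_eq_zero_of_notMem_tsupport hθ
      simp [h1]
  rw [heq] at hsum
  rw [hsum.2]
  apply Finset.sum_eq_zero
  intro x _
  apply hεW x (ht x x.2) _ (hfφ x)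
  intro θ hθ
  have h1 : f x θ = 0 := by
    by_contra h2
    have h3 : θ ∈ tsupport (f x) := subset_tsupport _ h2
    have h4 := hf x h3
    rw [Metric.mem_ball, dist_eq_norm] at h4
    linarith
  simp [h1]

end Pool.Agent.Helper49.FA
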