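import Mathlib

set_option autoImplicit false

open Finset

namespace Pool.Agent.Helper57

/-- Superadditivity of the geometric mean, in the shape needed for Shearer's lemma. -/
theorem geom_superadd {ι : Type*} (J : Finset ι) (hJ : J.Nonempty) (a b : ι → ℝ)
    (ha : ∀ j ∈ J, 0 ≤ a j) (hb : ∀ j ∈ J, 0 ≤ b j) (P u v : ℝ) (hP : 0 ≤ P)
    (hu0 : 0 ≤ u) (hv0 : 0 ≤ v)
    (hu : u ^ #J ≤ P * ∏ j ∈ J, a j) (hv : v ^ #J ≤ P * ∏ j ∈ J, b j) :
    (u + v) ^ #J ≤ P * ∏ j ∈ J, (a j + b j) := by
  classical
  have hk : 0 < #J := hJ.card_pos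
  have hk' : (#J : ℝ) ≠ 0 := by positivity
  -- degenerate case: the right side vanishes
  by_cases h0 : P * ∏ j ∈ J, (a j + b j) = 0
  · have hua : P * ∏ j ∈ J, a j ≤ P * ∏ j ∈ J, (a j + b j) :=
      mul_le_mul_of_nonneg_left (Finset.prod_le_prod ha
        (fun j hj => le_add_of_nonneg_right (hb j hj))) hP
    have hvb : P * ∏ j ∈ J, b j ≤ P * ∏ j ∈ J, (a j + b j) :=
      mul_le_mul_of_nonneg_left (Finset.prod_le_prod hb
        (fun j hj => le_add_of_nonneg_left (ha j hj))) hP
    have hu1 : u = 0 := by
      have : u ^ #J ≤ 0 := by linarith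
      have h2 : u ^ #J = 0 := le_antisymm this (pow_nonneg hu0 _)
      exact pow_eq_zero_iff hk.ne' |>.mp h2
    have hv1 : v = 0 := by
      have : v ^ #J ≤ 0 := by linarith
      have h2 : v ^ #J = 0 := le_antisymm this (pow_nonneg hv0 _)
      exact pow_eq_zero_iff hk.ne' |>.mp h2
    rw [h0, hu1, hv1]
    simp [hk.ne']
  · have hPpos : 0 < P := by
      rcases hP.eq_or_lt with h | h
      · exact absurd (by rw [← h]; simp) h0
      · exact h
    have hne : ∀ j ∈ J, a j + b j ≠ 0 := by
      intro j hj hz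
      apply h0
      rw [Finset.prod_eq_zero hj hz, mul_zero]
    have hpos : ∀ j ∈ J, 0 < a j + b j := fun j hj =>
      lt_of_le_of_ne (add_nonneg (ha j hj) (hb j hj)) (Ne.symm (hne j hj))
    set T : ℝ := P * ∏ j ∈ J, (a j + b j) with hT
    have hTpos : 0 < T := mul_pos hPpos (Finset.prod_pos hpos)
    set r : ℝ := T ^ ((#J : ℝ)⁻¹) with hr
    have hrpos : 0 < r := Real.rpow_pos_of_pos hTpos _
    have hrk : r ^ #J = T := Real.rpow_inv_natCast_pow hTpos.le hk.ne'
    -- the key estimate for one sequence
    have key : ∀ (c : ι → ℝ) (w : ℝ), 0 ≤ w → (∀ j ∈ J, 0 ≤ c j) →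
        w ^ #J ≤ P * ∏ j ∈ J, c j → w / r ≤ (∑ j ∈ J, c j / (a j + b j)) / #J := by
      intro c w hw hc hwc
      have hz : ∀ j ∈ J, 0 ≤ c j / (a j + b j) := fun j hj => div_nonneg (hc j hj) (hpos j hj).le
      have h1 : (∏ j ∈ J, (c j / (a j + b j)) ^ ((#J : ℝ)⁻¹)) ≤
          ∑ j ∈ J, (#J : ℝ)⁻¹ * (c j / (a j + b j)) := by
        apply Real.geom_mean_le_arith_mean_weighted
        · intro j _; positivity
        · rw [Finset.sum_const, nsmul_eq_mul]; field_simp
        · exact hz
      have h2 : (∏ j ∈ J, (c j / (a j + b j)) ^ ((#J : ℝ)⁻¹)) =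
          (∏ j ∈ J, (c j / (a j + b j))) ^ ((#J : ℝ)⁻¹) :=
        Real.finsetProd_rpow J _ hz _
      have h3 : w / r ≤ (∏ j ∈ J, (c j / (a j + b j))) ^ ((#J : ℝ)⁻¹) := by
        have h4 : (w / r) ^ #J ≤ ∏ j ∈ J, (c j / (a j + b j)) := by
          rw [div_pow, hrk, Finset.prod_div_distrib, div_le_div_iff₀ hTpos (Finset.prod_pos hpos)]
          calc w ^ #J * ∏ j ∈ J, (a j + b j) ≤ (P * ∏ j ∈ J, c j) * ∏ j ∈ J, (a j + b j) :=
                mul_le_mul_of_nonneg_right hwc (Finset.prod_pos hpos).le
            _ = (∏ j ∈ J, c j) * T := by rw [hT]; ring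
        have h5 : w / r = ((w / r) ^ #J) ^ ((#J : ℝ)⁻¹) := by
          rw [Real.pow_rpow_inv_natCast (div_nonneg hw hrpos.le) hk.ne']
        rw [h5]
        exact Real.rpow_le_rpow (pow_nonneg (div_nonneg hw hrpos.le) _) h4 (by positivity)
      calc w / r ≤ _ := h3
        _ = _ := h2.symm
        _ ≤ _ := h1
        _ = _ := by rw [← Finset.mul_sum]; field_simp
    have hua := key a u hu0 ha hu
    have hvb := key b v hv0 hb hv
    have hsum : (u + v) / r ≤ 1 := by
      have h6 : (∑ j ∈ J, a j / (a j + b j)) / #J + (∑ j ∈ J, b j / (a j + b j)) / #J = 1 := by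
        rw [← add_div, ← Finset.sum_add_distrib]
        have : ∀ j ∈ J, a j / (a j + b j) + b j / (a j + b j) = 1 := by
          intro j hj
          rw [← add_div, div_self (hne j hj)]
        rw [Finset.sum_congr rfl this]
        simp only [Finset.sum_const, nsmul_eq_mul, mul_one]
        exact div_self hk'
      rw [add_div]
      linarith
    have h7 : u + v ≤ r := by
      rwa [div_le_one hrpos] at hsum
    calc (u + v) ^ #J ≤ r ^ #J := pow_le_pow_left₀ (by linarith) h7 _
      _ = T := hrk

/-- The trace of a family on a set. -/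
def trace {α : Type*} [DecidableEq α] (F : Finset (Finset α)) (B : Finset α) : Finset (Finset α) :=
  F.image (fun x => x ∩ B)

theorem mem_trace {α : Type*} [DecidableEq α] {F : Finset (Finset α)} {B z : Finset α} :
    z ∈ trace F B ↔ ∃ x ∈ F, x ∩ B = z := by
  simp [trace]

/-- Shearer's lemma for exact covers. -/
theorem shearer {α ι : Type*} [DecidableEq α] (J : Finset ι) (B : ι → Finset α) (k : ℕ)
    (hk : 0 < k) (S : Finset α) :
    ∀ F : Finset (Finset α), (∀ x ∈ F, x ⊆ S) →
      (∀ e ∈ S, #{j ∈ J | e ∈ B j} = k) →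
      (#F : ℝ) ^ k ≤ ∏ j ∈ J, (#(trace F (B j)) : ℝ) := by
  classical
  induction S using Finset.induction_on with
  | empty =>
    intro F hF _
    have hsub : F ⊆ {∅} := by
      intro x hx
      have := hF x hx
      rw [Finset.subset_empty] at this
      simp [this]
    rcases Finset.subset_singleton_iff.mp hsub with h | h
    · subst h
      have h0 : (((#(∅ : Finset (Finset α)) : ℕ) : ℝ)) ^ k = 0 := by simp [hk.ne']
      rw [h0]
      exact Finset.prod_nonneg (fun j _ => Nat.cast_nonneg _)
    · subst h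
      simp [trace]
  | insert e S he ih =>
    intro F hF hcov
    set F0 := F.nonMemberSubfamily e with hF0
    set F1 := F.memberSubfamily e with hF1
    have hcard : #F1 + #F0 = #F := Finset.card_memberSubfamily_add_card_nonMemberSubfamily e F
    have h0S : ∀ x ∈ F0, x ⊆ S := by
      intro x hx
      rw [hF0, Finset.mem_nonMemberSubfamily] at hx
      have := hF x hx.1
      intro y hy
      have hy' := this hy
      rw [Finset.mem_insert] at hy'
      rcases hy' with h | h
      · subst h; exact absurd hy hx.2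
      · exact h
    have h1S : ∀ x ∈ F1, x ⊆ S := by
      intro x hx
      rw [hF1, Finset.mem_memberSubfamily] at hx
      have := hF _ hx.1
      intro y hy
      have hy' := this (Finset.mem_insert_of_mem hy)
      rw [Finset.mem_insert] at hy'
      rcases hy' with h | h
      · subst h; exact absurd hy hx.2
      · exact h
    have hcov' : ∀ e' ∈ S, #{j ∈ J | e' ∈ B j} = k := fun e' he' =>
      hcov e' (Finset.mem_insert_of_mem he')
    have i0 := ih F0 h0S hcov'
    have i1 := ih F1 h1S hcov'
    have hJ1 : #{j ∈ J | e ∈ B j} = k := hcov e (Finset.mem_insert_self _ _)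
    set J1 := J.filter (fun j => e ∈ B j) with hJ1def
    set J0 := J.filter (fun j => ¬ e ∈ B j) with hJ0def
    have hsplit : ∀ f : ι → ℝ, ∏ j ∈ J, f j = (∏ j ∈ J0, f j) * ∏ j ∈ J1, f j := by
      intro f
      rw [mul_comm, hJ1def, hJ0def, Finset.prod_filter_mul_prod_filter_not]
    -- comparison of traces
    have hc0 : ∀ j ∈ J0, #(trace F0 (B j)) ≤ #(trace F (B j)) := by
      intro j _
      apply Finset.card_le_card
      intro z hz
      rw [mem_trace] at hz ⊢
      obtain ⟨x, hx, rfl⟩ := hz
      rw [hF0, Finset.mem_nonMemberSubfamily] at hx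
      exact ⟨x, hx.1, rfl⟩
    have hc1 : ∀ j ∈ J0, #(trace F1 (B j)) ≤ #(trace F (B j)) := by
      intro j hj
      apply Finset.card_le_card
      intro z hz
      rw [mem_trace] at hz ⊢
      obtain ⟨x, hx, rfl⟩ := hz
      rw [hF1, Finset.mem_memberSubfamily] at hx
      refine ⟨insert e x, hx.1, ?_⟩
      have hej : e ∉ B j := by
        rw [hJ0def, Finset.mem_filter] at hj; exact hj.2
      rw [Finset.insert_inter_of_notMem hej]
    have hc2 : ∀ j ∈ J1, #(trace F0 (B j)) + #(trace F1 (B j)) ≤ #(trace F (B j)) := by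
      intro j hj
      have hej : e ∈ B j := by
        rw [hJ1def, Finset.mem_filter] at hj; exact hj.2
      have hinj : Set.InjOn (fun z : Finset α => insert e z) (trace F1 (B j) : Set (Finset α)) := by
        intro z hz w hw hzw
        have hz' : e ∉ z := by
          obtain ⟨x, hx, rfl⟩ := mem_trace.mp (Finset.mem_coe.mp hz)
          rw [hF1, Finset.mem_memberSubfamily] at hx
          exact fun h => hx.2 (Finset.mem_inter.mp h).1
        have hw' : e ∉ w := by
          obtain ⟨x, hx, rfl⟩ := mem_trace.mp (Finset.mem_coe.mp hw)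
          rw [hF1, Finset.mem_memberSubfamily] at hx
          exact fun h => hx.2 (Finset.mem_inter.mp h).1
        have : (insert e z).erase e = (insert e w).erase e := by
          simp only at hzw
          rw [hzw]
        rwa [Finset.erase_insert hz', Finset.erase_insert hw'] at this
      rw [← Finset.card_image_of_injOn hinj, ← Finset.card_union_of_disjoint]
      · apply Finset.card_le_card
        intro z hz
        rw [Finset.mem_union] at hz
        rcases hz with hz | hz
        · rw [mem_trace] at hz ⊢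
          obtain ⟨x, hx, rfl⟩ := hz
          rw [hF0, Finset.mem_nonMemberSubfamily] at hx
          exact ⟨x, hx.1, rfl⟩
        · rw [Finset.mem_image] at hz
          obtain ⟨w, hw, rfl⟩ := hz
          obtain ⟨x, hx, rfl⟩ := mem_trace.mp hw
          rw [hF1, Finset.mem_memberSubfamily] at hx
          rw [mem_trace]
          refine ⟨insert e x, hx.1, ?_⟩
          rw [Finset.insert_inter_of_mem hej]
      · rw [Finset.disjoint_left]
        intro z hz hz'
        obtain ⟨x, hx, rfl⟩ := mem_trace.mp hz
        rw [hF0, Finset.mem_nonMemberSubfamily] at hx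
        rw [Finset.mem_image] at hz'
        obtain ⟨w, _, hw⟩ := hz'
        have : e ∈ x ∩ B j := by
          rw [← hw]; exact Finset.mem_insert_self _ _
        exact hx.2 (Finset.mem_inter.mp this).1
    set P : ℝ := ∏ j ∈ J0, (#(trace F (B j)) : ℝ) with hPdef
    have hP : 0 ≤ P := Finset.prod_nonneg (fun j _ => by positivity)
    have hJ1ne : J1.Nonempty := by
      rw [← Finset.card_pos, hJ1]; exact hk
    have hu : (#F0 : ℝ) ^ #J1 ≤ P * ∏ j ∈ J1, (#(trace F0 (B j)) : ℝ) := by
      rw [hJ1]
      refine i0.trans ?_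
      rw [hsplit]
      apply mul_le_mul_of_nonneg_right _ (Finset.prod_nonneg (fun j _ => by positivity))
      apply Finset.prod_le_prod (fun j _ => by positivity)
      intro j hj
      exact_mod_cast hc0 j hj
    have hv : (#F1 : ℝ) ^ #J1 ≤ P * ∏ j ∈ J1, (#(trace F1 (B j)) : ℝ) := by
      rw [hJ1]
      refine i1.trans ?_
      rw [hsplit]
      apply mul_le_mul_of_nonneg_right _ (Finset.prod_nonneg (fun j _ => by positivity))
      apply Finset.prod_le_prod (fun j _ => by positivity)
      intro j hj
      exact_mod_cast hc1 j hj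
    have main := geom_superadd J1 hJ1ne (fun j => (#(trace F0 (B j)) : ℝ))
      (fun j => (#(trace F1 (B j)) : ℝ)) (fun j _ => by positivity) (fun j _ => by positivity)
      P (#F0) (#F1) hP (by positivity) (by positivity) hu hv
    have hF' : (#F : ℝ) = (#F0 : ℝ) + (#F1 : ℝ) := by
      rw [← hcard]; push_cast; ring
    rw [hF', hsplit, ← hPdef]
    rw [hJ1] at main
    refine main.trans ?_
    apply mul_le_mul_of_nonneg_left _ hP
    apply Finset.prod_le_prod (fun j _ => by positivity)
    intro j hj
    exact_mod_cast hc2 j hj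

end Pool.Agent.Helper57
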