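import Mathlib
import Pool.Agent.Helper57.Shearer

set_option autoImplicit false
set_option linter.unusedSectionVars false

open Finset

namespace Pool.Agent.Helper57

variable {V : Type*} [Fintype V] [DecidableEq V]

/-- The chromatic number (a natural number) of the graph on `V` with edge set `x`. -/
noncomputable def chi (x : Finset (Sym2 V)) : ℕ :=
  sInf {m : ℕ | (SimpleGraph.fromEdgeSet (x : Set (Sym2 V))).Colorable m}

theorem colorable_chi (x : Finset (Sym2 V)) :
    (SimpleGraph.fromEdgeSet (x : Set (Sym2 V))).Colorable (chi x) := by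
  have : (chi x) ∈ {m : ℕ | (SimpleGraph.fromEdgeSet (x : Set (Sym2 V))).Colorable m} :=
    Nat.sInf_mem ⟨Fintype.card V, SimpleGraph.colorable_of_fintype _⟩
  exact this

theorem chi_le {x : Finset (Sym2 V)} {m : ℕ}
    (h : (SimpleGraph.fromEdgeSet (x : Set (Sym2 V))).Colorable m) : chi x ≤ m :=
  Nat.sInf_le h

theorem chi_le_of {s : ℕ} (φ : V → Fin s) (x : Finset (Sym2 V))
    (hx : ∀ u v, u ≠ v → s(u, v) ∈ x → φ u ≠ φ v) : chi x ≤ s := by
  apply chi_le
  refine ⟨SimpleGraph.Coloring.mk φ ?_⟩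
  intro u v huv
  rw [SimpleGraph.fromEdgeSet_adj] at huv
  exact hx u v huv.2 (by exact_mod_cast huv.1)

/-- Edges all of whose ends lie in class `i` of `φ`. -/
def part {ι : Type*} [DecidableEq ι] (φ : V → ι) (i : ι) : Finset (Sym2 V) :=
  univ.filter (fun e => e.map φ = s(i, i))

/-- Edges both ends of which lie in the same class of `φ`. -/
def cls {ι : Type*} [DecidableEq ι] (φ : V → ι) : Finset (Sym2 V) :=
  univ.filter (fun e => (e.map φ).IsDiag)

theorem mk_mem_part {ι : Type*} [DecidableEq ι] (φ : V → ι) (i : ι) (u v : V) :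
    s(u, v) ∈ part φ i ↔ φ u = i ∧ φ v = i := by
  simp [part]

theorem mk_mem_cls {ι : Type*} [DecidableEq ι] (φ : V → ι) (u v : V) :
    s(u, v) ∈ cls φ ↔ φ u = φ v := by
  simp [cls]

theorem part_disjoint {ι : Type*} [DecidableEq ι] (φ : V → ι) {i j : ι} (hij : i ≠ j) :
    Disjoint (part φ i) (part φ j) := by
  rw [Finset.disjoint_left]
  intro e
  induction e using Sym2.ind with
  | _ u v =>
    rw [mk_mem_part, mk_mem_part]
    rintro ⟨h1, _⟩ ⟨h2, _⟩
    exact hij (h1.symm.trans h2)

theorem chi_le_sum {ι : Type*} [Fintype ι] [DecidableEq ι] (φ : V → ι) (x : Finset (Sym2 V)) :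
    chi x ≤ ∑ i, chi (x ∩ part φ i) := by
  have hC : ∀ i, Nonempty ((SimpleGraph.fromEdgeSet
      ((x ∩ part φ i : Finset (Sym2 V)) : Set (Sym2 V))).Coloring (Fin (chi (x ∩ part φ i)))) :=
    fun i => colorable_chi (x ∩ part φ i)
  have C := fun i => (hC i).some
  apply chi_le
  have hcol : (SimpleGraph.fromEdgeSet (x : Set (Sym2 V))).Colorable
      (Fintype.card (Σ i, Fin (chi (x ∩ part φ i)))) := by
    apply SimpleGraph.Coloring.colorable
    refine SimpleGraph.Coloring.mk (fun v => (⟨φ v, C (φ v) v⟩ : Σ i, Fin (chi (x ∩ part φ i)))) ?_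
    intro u v huv heq
    rw [SimpleGraph.fromEdgeSet_adj] at huv
    have hφ : φ u = φ v := congrArg Sigma.fst heq
    have hadj : (SimpleGraph.fromEdgeSet
        ((x ∩ part φ (φ v) : Finset (Sym2 V)) : Set (Sym2 V))).Adj u v := by
      rw [SimpleGraph.fromEdgeSet_adj]
      refine ⟨?_, huv.2⟩
      rw [Finset.mem_coe, Finset.mem_inter, mk_mem_part]
      exact ⟨by exact_mod_cast huv.1, hφ, rfl⟩
    have hne := (C (φ v)).valid hadj
    apply hne
    have : ∀ (a b : V), φ a = φ b → (⟨φ a, C (φ a) u⟩ : Σ i, Fin (chi (x ∩ part φ i))) =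
        ⟨φ b, C (φ b) v⟩ → C (φ b) u = C (φ b) v := by
      intro a b hab h
      rw [hab] at h
      simpa using h
    exact this u v hφ heq
  simpa using hcol

/-- The number of maps `V → Fin s` that identify the two ends of a fixed non-loop. -/
theorem card_cover (s : ℕ) (e : Sym2 V) (he : ¬ e.IsDiag) :
    #{φ : V → Fin s | e ∈ cls φ} = s ^ (Fintype.card V - 1) := by
  induction e using Sym2.ind with
  | _ u v =>
    rw [Sym2.mk_isDiag_iff] at he
    have h1 : #{φ : V → Fin s | s(u, v) ∈ cls φ} = Fintype.card ({w : V // w ≠ v} → Fin s) := by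
      rw [← Finset.card_univ]
      refine Finset.card_bij' (fun φ _ => fun w => φ w.1)
        (fun ψ _ => fun w => if h : w = v then ψ ⟨u, he⟩ else ψ ⟨w, h⟩) ?_ ?_ ?_ ?_
      · intro φ _
        exact Finset.mem_univ _
      · intro ψ _
        rw [Finset.mem_filter, mk_mem_cls]
        refine ⟨Finset.mem_univ _, ?_⟩
        simp [he]
      · intro φ hφ
        rw [Finset.mem_filter, mk_mem_cls] at hφ
        funext w
        by_cases h : w = v
        · simp [h, hφ.2]
        · simp [h]
      · intro ψ _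
        funext w
        simp [w.2]
    rw [h1, Fintype.card_fun, Fintype.card_fin]
    congr 1
    simp

theorem sum_card_cls (s : ℕ) (S : Finset (Sym2 V)) (hS : ∀ e ∈ S, ¬ e.IsDiag) :
    ∑ φ : V → Fin s, #(S ∩ cls φ) = #S * s ^ (Fintype.card V - 1) := by
  have h1 : ∀ φ : V → Fin s, #(S ∩ cls φ) = ∑ e ∈ S, if e ∈ cls φ then 1 else 0 := by
    intro φ
    rw [← Finset.filter_mem_eq_inter, Finset.card_filter]
  simp_rw [h1]
  rw [Finset.sum_comm]
  have h2 : ∀ e ∈ S, (∑ φ : V → Fin s, if e ∈ cls φ then 1 else 0) =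
      s ^ (Fintype.card V - 1) := by
    intro e he
    rw [← Finset.card_filter]
    exact card_cover s e (hS e he)
  rw [Finset.sum_congr rfl h2, Finset.sum_const, smul_eq_mul]

end Pool.Agent.Helper57
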