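import Mathlib
import Pool.Agent.Helper57.ChromBasic

set_option autoImplicit false
set_option linter.unusedSectionVars false

open Finset

namespace Pool.Agent.Helper57

variable {V : Type*} [Fintype V] [DecidableEq V]

/-- Two cross-intersecting families of subsets of a ground set with `m` elements. -/
theorem cross_intersecting {α : Type*} [DecidableEq α] (T : Finset α) (A B : Finset (Finset α))
    (hA : ∀ x ∈ A, x ⊆ T) (hB : ∀ x ∈ B, x ⊆ T)
    (h : ∀ x ∈ A, ∀ y ∈ B, (x ∩ y).Nonempty) :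
    #A + #B ≤ 2 ^ #T := by
  have hinj : Set.InjOn (fun z : Finset α => T \ z) (B : Set (Finset α)) := by
    intro z hz w hw hzw
    have hz' := hB z hz
    have hw' := hB w hw
    simp only at hzw
    rw [← Finset.sdiff_sdiff_eq_self hz', hzw, Finset.sdiff_sdiff_eq_self hw']
  rw [← Finset.card_image_of_injOn hinj, ← Finset.card_union_of_disjoint, ← Finset.card_powerset]
  · apply Finset.card_le_card
    intro z hz
    rw [Finset.mem_union] at hz
    rw [Finset.mem_powerset]
    rcases hz with hz | hz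
    · exact hA z hz
    · rw [Finset.mem_image] at hz
      obtain ⟨w, _, rfl⟩ := hz
      exact Finset.sdiff_subset
  · rw [Finset.disjoint_left]
    intro z hz hz'
    rw [Finset.mem_image] at hz'
    obtain ⟨w, hw, rfl⟩ := hz'
    obtain ⟨e, he⟩ := h _ hz w hw
    rw [Finset.mem_inter, Finset.mem_sdiff] at he
    exact he.1.2 he.2

/-- The product form of the linear bound: if `chi (x ∩ y) > s` for all `x ∈ A`, `y ∈ B`, then
the product of the densities of `A` and `B` is at most `4 ^ (-s)`. -/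
theorem cross_linear (S : Finset (Sym2 V)) (hS : ∀ e ∈ S, ¬ e.IsDiag)
    (A B : Finset (Finset (Sym2 V))) (hA : ∀ x ∈ A, x ⊆ S) (hB : ∀ x ∈ B, x ⊆ S) (s : ℕ)
    (h : ∀ x ∈ A, ∀ y ∈ B, s < chi (x ∩ y)) :
    (#A : ℝ) * #B * 4 ^ s ≤ 4 ^ #S := by
  classical
  have hApow : #A ≤ 2 ^ #S := by
    rw [← Finset.card_powerset]
    exact Finset.card_le_card (fun x hx => Finset.mem_powerset.mpr (hA x hx))
  have hBpow : #B ≤ 2 ^ #S := by
    rw [← Finset.card_powerset]
    exact Finset.card_le_card (fun x hx => Finset.mem_powerset.mpr (hB x hx))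
  rcases Nat.eq_zero_or_pos s with hs | hs
  · subst hs
    have h1 : (#A : ℝ) ≤ 2 ^ #S := by exact_mod_cast hApow
    have h2 : (#B : ℝ) ≤ 2 ^ #S := by exact_mod_cast hBpow
    calc (#A : ℝ) * #B * 4 ^ 0 = (#A : ℝ) * #B := by ring
      _ ≤ 2 ^ #S * 2 ^ #S := mul_le_mul h1 h2 (by positivity) (by positivity)
      _ = 4 ^ #S := by rw [← mul_pow]; norm_num
  -- the vertex set is nonempty unless one of the families is empty
  rcases isEmpty_or_nonempty V with hV | hV
  · rcases A.eq_empty_or_nonempty with h0 | ⟨x, hx⟩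
    · subst h0; simp
    rcases B.eq_empty_or_nonempty with h0 | ⟨y, hy⟩
    · subst h0; simp
    exfalso
    have h1 := h x hx y hy
    have h2 : chi (x ∩ y) ≤ 0 := chi_le (by
      have := SimpleGraph.colorable_of_fintype
        (SimpleGraph.fromEdgeSet ((x ∩ y : Finset (Sym2 V)) : Set (Sym2 V)))
      simpa using this)
    omega
  set k : ℕ := s ^ (Fintype.card V - 1) with hk
  have hkpos : 0 < k := Nat.pow_pos hs
  have hN : Fintype.card (V → Fin s) = s * k := by
    rw [Fintype.card_fun, Fintype.card_fin, hk, ← pow_succ']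
    congr 1
    have := Fintype.card_pos (α := V)
    omega
  have hcov : ∀ e ∈ S, #{φ ∈ (univ : Finset (V → Fin s)) | e ∈ cls φ} = k :=
    fun e he => card_cover s e (hS e he)
  have shA := shearer (univ : Finset (V → Fin s)) (fun φ => cls φ) k hkpos S A hA hcov
  have shB := shearer (univ : Finset (V → Fin s)) (fun φ => cls φ) k hkpos S B hB hcov
  have hloc : ∀ φ : V → Fin s, (#(trace A (cls φ)) : ℝ) * #(trace B (cls φ)) * 4 ≤
      4 ^ #(S ∩ cls φ) := by
    intro φ
    have hc : #(trace A (cls φ)) + #(trace B (cls φ)) ≤ 2 ^ #(S ∩ cls φ) := by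
      apply cross_intersecting
      · intro z hz
        obtain ⟨x, hx, rfl⟩ := mem_trace.mp hz
        exact Finset.inter_subset_inter_right (hA x hx)
      · intro z hz
        obtain ⟨x, hx, rfl⟩ := mem_trace.mp hz
        exact Finset.inter_subset_inter_right (hB x hx)
      · intro z hz w hw
        obtain ⟨x, hx, rfl⟩ := mem_trace.mp hz
        obtain ⟨y, hy, rfl⟩ := mem_trace.mp hw
        by_contra hne
        rw [Finset.not_nonempty_iff_eq_empty] at hne
        have h1 := h x hx y hy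
        have h2 : chi (x ∩ y) ≤ s := by
          apply chi_le_of φ
          intro u v _ huv hφ
          have : s(u, v) ∈ (x ∩ cls φ) ∩ (y ∩ cls φ) := by
            rw [Finset.mem_inter] at huv
            rw [Finset.mem_inter, Finset.mem_inter, Finset.mem_inter, mk_mem_cls]
            exact ⟨⟨huv.1, hφ⟩, ⟨huv.2, hφ⟩⟩
          rw [hne] at this
          exact Finset.notMem_empty _ this
        omega
    have hc' : (#(trace A (cls φ)) : ℝ) + #(trace B (cls φ)) ≤ 2 ^ #(S ∩ cls φ) := by
      exact_mod_cast hc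
    have h4 : (4 : ℝ) ^ #(S ∩ cls φ) = (2 ^ #(S ∩ cls φ)) ^ 2 := by
      rw [← pow_mul, mul_comm, pow_mul]; norm_num
    rw [h4]
    have ha : (0 : ℝ) ≤ #(trace A (cls φ)) := by positivity
    have hb : (0 : ℝ) ≤ #(trace B (cls φ)) := by positivity
    nlinarith [sq_nonneg ((#(trace A (cls φ)) : ℝ) - #(trace B (cls φ)))]
  have hprod : (∏ φ : V → Fin s, ((#(trace A (cls φ)) : ℝ) * #(trace B (cls φ)) * 4)) ≤
      ∏ φ : V → Fin s, (4 : ℝ) ^ #(S ∩ cls φ) :=
    Finset.prod_le_prod (fun φ _ => by positivity) (fun φ _ => hloc φ)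
  have hR : (∏ φ : V → Fin s, (4 : ℝ) ^ #(S ∩ cls φ)) = (4 ^ #S) ^ k := by
    rw [Finset.prod_pow_eq_pow_sum, sum_card_cls s S hS, ← pow_mul]
  have hL : (∏ φ : V → Fin s, ((#(trace A (cls φ)) : ℝ) * #(trace B (cls φ)) * 4)) =
      (∏ φ : V → Fin s, (#(trace A (cls φ)) : ℝ)) * (∏ φ : V → Fin s, (#(trace B (cls φ)) : ℝ)) *
      (4 ^ s) ^ k := by
    rw [Finset.prod_mul_distrib, Finset.prod_mul_distrib, Finset.prod_const, Finset.card_univ, hN,
      pow_mul]
  have hfin : ((#A : ℝ) * #B * 4 ^ s) ^ k ≤ (4 ^ #S) ^ k := by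
    calc ((#A : ℝ) * #B * 4 ^ s) ^ k = (#A : ℝ) ^ k * (#B : ℝ) ^ k * (4 ^ s) ^ k := by ring
      _ ≤ (∏ φ : V → Fin s, (#(trace A (cls φ)) : ℝ)) *
          (∏ φ : V → Fin s, (#(trace B (cls φ)) : ℝ)) * (4 ^ s) ^ k := by
          apply mul_le_mul_of_nonneg_right _ (by positivity)
          exact mul_le_mul shA shB (by positivity) (Finset.prod_nonneg (fun _ _ => by positivity))
      _ = _ := hL.symm
      _ ≤ _ := hprod
      _ = _ := hR
  exact (pow_le_pow_iff_left₀ (by positivity) (by positivity) hkpos.ne').mp hfin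

end Pool.Agent.Helper57
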