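import Mathlib
import Pool.Agent.Helper57.ChromCross

set_option autoImplicit false
set_option linter.unusedSectionVars false

open Finset

namespace Pool.Agent.Helper57

variable {V : Type*} [Fintype V] [DecidableEq V]

/-- The sum of the inverse square roots of the ranks. -/
theorem rank_sum {ι : Type*} [DecidableEq ι] (f : ι → ℝ) (s : Finset ι) :
    ∑ x ∈ s, 1 / √(#{y ∈ s | f x ≤ f y} : ℝ) ≤ 2 * √(#s : ℝ) := by
  induction s using Finset.induction_on_min_value f with
  | empty => simp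
  | insert a s ha hmin ih =>
    rw [Finset.sum_insert ha]
    have h1 : #{y ∈ insert a s | f a ≤ f y} = #s + 1 := by
      rw [Finset.filter_true_of_mem, Finset.card_insert_of_notMem ha]
      intro y hy
      rw [Finset.mem_insert] at hy
      rcases hy with rfl | hy
      · exact le_rfl
      · exact hmin y hy
    have h2 : ∑ x ∈ s, 1 / √(#{y ∈ insert a s | f x ≤ f y} : ℝ) ≤
        ∑ x ∈ s, 1 / √(#{y ∈ s | f x ≤ f y} : ℝ) := by
      apply Finset.sum_le_sum
      intro x hx
      have hpos : 0 < #{y ∈ s | f x ≤ f y} :=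
        Finset.card_pos.mpr ⟨x, by simp [hx]⟩
      have hle : #{y ∈ s | f x ≤ f y} ≤ #{y ∈ insert a s | f x ≤ f y} :=
        Finset.card_le_card (Finset.filter_subset_filter _ (Finset.subset_insert a s))
      apply one_div_le_one_div_of_le
      · exact Real.sqrt_pos.mpr (by exact_mod_cast hpos)
      · exact Real.sqrt_le_sqrt (by exact_mod_cast hle)
    rw [h1, Finset.card_insert_of_notMem ha]
    push_cast
    have h3 : 1 / √((#s : ℝ) + 1) ≤ 2 * √((#s : ℝ) + 1) - 2 * √(#s : ℝ) := by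
      have hp : 0 < √((#s : ℝ) + 1) := Real.sqrt_pos.mpr (by positivity)
      have hq : 0 ≤ √(#s : ℝ) := Real.sqrt_nonneg _
      have hp2 : √((#s : ℝ) + 1) ^ 2 = (#s : ℝ) + 1 := Real.sq_sqrt (by positivity)
      have hq2 : √(#s : ℝ) ^ 2 = (#s : ℝ) := Real.sq_sqrt (by positivity)
      rw [div_le_iff₀ hp]
      nlinarith [sq_nonneg (√((#s : ℝ) + 1) - √(#s : ℝ))]
    linarith

/-- The functional form of the linear bound, for a single ground set of edges. -/
theorem single_part (S : Finset (Sym2 V)) (hS : ∀ e ∈ S, ¬ e.IsDiag)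
    (a b : Finset (Sym2 V) → ℝ) (ha : ∀ x, 0 ≤ a x) (hb : ∀ x, 0 ≤ b x) (K : ℝ) (hK : 0 ≤ K)
    (h : ∀ x ⊆ S, ∀ y ⊆ S, a x * b y ≤ K * 2 ^ chi (x ∩ y)) :
    (∑ x ∈ S.powerset, a x) * (∑ y ∈ S.powerset, b y) ≤ K * 8 * 4 ^ #S := by
  classical
  set P := S.powerset with hP
  have hN : (#P : ℝ) = 2 ^ #S := by rw [hP, Finset.card_powerset]; push_cast; ring
  have hN2 : (#P : ℝ) ^ 2 = 4 ^ #S := by
    rw [hN, ← pow_mul, mul_comm, pow_mul]; norm_num
  have key : ∀ x ∈ P, ∀ y ∈ P, a x * b y ≤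
      2 * K * #P * ((1 / √(#{x' ∈ P | a x ≤ a x'} : ℝ)) * (1 / √(#{y' ∈ P | b y ≤ b y'} : ℝ))) := by
    intro x hx y hy
    set A := P.filter (fun x' => a x ≤ a x') with hAdef
    set B := P.filter (fun y' => b y ≤ b y') with hBdef
    have hxA : x ∈ A := by rw [hAdef, Finset.mem_filter]; exact ⟨hx, le_rfl⟩
    have hyB : y ∈ B := by rw [hBdef, Finset.mem_filter]; exact ⟨hy, le_rfl⟩
    have hAS : ∀ z ∈ A, z ⊆ S := fun z hz =>
      Finset.mem_powerset.mp (Finset.mem_filter.mp hz).1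
    have hBS : ∀ z ∈ B, z ⊆ S := fun z hz =>
      Finset.mem_powerset.mp (Finset.mem_filter.mp hz).1
    obtain ⟨q, hq, hmin⟩ := Finset.exists_min_image (A ×ˢ B) (fun q => chi (q.1 ∩ q.2))
      ⟨(x, y), Finset.mem_product.mpr ⟨hxA, hyB⟩⟩
    rw [Finset.mem_product] at hq
    set t := chi (q.1 ∩ q.2) with ht
    have hp : a x * b y ≤ K * 2 ^ t := by
      calc a x * b y ≤ a q.1 * b q.2 :=
            mul_le_mul (Finset.mem_filter.mp hq.1).2 (Finset.mem_filter.mp hq.2).2 (hb y) (ha _)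
        _ ≤ K * 2 ^ t := h q.1 (hAS _ hq.1) q.2 (hBS _ hq.2)
    have hp0 : 0 ≤ a x * b y := mul_nonneg (ha x) (hb y)
    have hall : ∀ x' ∈ A, ∀ y' ∈ B, t ≤ chi (x' ∩ y') := fun x' hx' y' hy' =>
      hmin (x', y') (Finset.mem_product.mpr ⟨hx', hy'⟩)
    have hAP : #A ≤ #P := Finset.card_le_card (Finset.filter_subset _ _)
    have hBP : #B ≤ #P := Finset.card_le_card (Finset.filter_subset _ _)
    have hApos : (0 : ℝ) < #A := by exact_mod_cast Finset.card_pos.mpr ⟨x, hxA⟩
    have hBpos : (0 : ℝ) < #B := by exact_mod_cast Finset.card_pos.mpr ⟨y, hyB⟩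
    have hsq : (a x * b y) ^ 2 * (#A * #B) ≤ (2 * K * #P) ^ 2 := by
      have h1 : (a x * b y) ^ 2 ≤ (K * 2 ^ t) ^ 2 := pow_le_pow_left₀ hp0 hp 2
      have h4 : ((2 : ℝ) ^ t) ^ 2 = 4 ^ t := by rw [← pow_mul, mul_comm, pow_mul]; norm_num
      rcases Nat.eq_zero_or_pos t with h0 | h0
      · rw [h0] at h1
        have h2 : (#A : ℝ) * #B ≤ #P * #P :=
          mul_le_mul (by exact_mod_cast hAP) (by exact_mod_cast hBP) hBpos.le (by positivity)
        calc (a x * b y) ^ 2 * (#A * #B) ≤ (K * 2 ^ 0) ^ 2 * (#P * #P) :=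
              mul_le_mul h1 h2 (by positivity) (by positivity)
          _ ≤ (2 * K * #P) ^ 2 := by nlinarith [sq_nonneg (K * #P)]
      · have h2 := cross_linear S hS A B hAS hBS (t - 1) (fun x' hx' y' hy' => by
          have := hall x' hx' y' hy'
          omega)
        have h3 : (4 : ℝ) ^ t = 4 * 4 ^ (t - 1) := by
          rw [← pow_succ']; congr 1; omega
        calc (a x * b y) ^ 2 * (#A * #B) ≤ (K * 2 ^ t) ^ 2 * (#A * #B) :=
              mul_le_mul_of_nonneg_right h1 (by positivity)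
          _ = 4 * K ^ 2 * (#A * #B * 4 ^ (t - 1)) := by rw [mul_pow, h4, h3]; ring
          _ ≤ 4 * K ^ 2 * 4 ^ #S := mul_le_mul_of_nonneg_left h2 (by positivity)
          _ = (2 * K * #P) ^ 2 := by rw [← hN2]; ring
    have hsqrt : 2 * K * #P * ((1 / √(#A : ℝ)) * (1 / √(#B : ℝ))) =
        (2 * K * #P) / √((#A : ℝ) * #B) := by
      rw [Real.sqrt_mul hApos.le]
      field_simp
    rw [hsqrt, le_div_iff₀ (Real.sqrt_pos.mpr (by positivity))]
    apply le_of_sq_le_sq _ (by positivity)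
    rw [mul_pow, Real.sq_sqrt (by positivity)]
    exact hsq
  have hsum : (∑ x ∈ P, a x) * (∑ y ∈ P, b y) ≤
      2 * K * #P * ((∑ x ∈ P, 1 / √(#{x' ∈ P | a x ≤ a x'} : ℝ)) *
        (∑ y ∈ P, 1 / √(#{y' ∈ P | b y ≤ b y'} : ℝ))) := by
    rw [Finset.sum_mul_sum, Finset.sum_mul_sum, Finset.mul_sum]
    apply Finset.sum_le_sum
    intro x hx
    rw [Finset.mul_sum]
    apply Finset.sum_le_sum
    intro y hy
    exact key x hx y hy
  have hra := rank_sum a P
  have hrb := rank_sum b P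
  have hra0 : 0 ≤ ∑ x ∈ P, 1 / √(#{x' ∈ P | a x ≤ a x'} : ℝ) :=
    Finset.sum_nonneg (fun _ _ => by positivity)
  calc (∑ x ∈ P, a x) * (∑ y ∈ P, b y) ≤ _ := hsum
    _ ≤ 2 * K * #P * ((2 * √(#P : ℝ)) * (2 * √(#P : ℝ))) := by
        apply mul_le_mul_of_nonneg_left _ (by positivity)
        exact mul_le_mul hra hrb (Finset.sum_nonneg (fun _ _ => by positivity)) (by positivity)
    _ = 8 * K * (#P * (√(#P : ℝ) * √(#P : ℝ))) := by ring
    _ = 8 * K * (#P : ℝ) ^ 2 := by rw [Real.mul_self_sqrt (by positivity)]; ring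
    _ = K * 8 * 4 ^ #S := by rw [hN2]; ring

theorem sum_powerset_union {α : Type*} [DecidableEq α] (T U : Finset α) (hd : Disjoint T U)
    (f : Finset α → ℝ) :
    ∑ x ∈ (T ∪ U).powerset, f x = ∑ x ∈ T.powerset, ∑ y ∈ U.powerset, f (x ∪ y) := by
  rw [← Finset.sum_product']
  symm
  refine Finset.sum_bij' (fun q _ => q.1 ∪ q.2) (fun z _ => (z ∩ T, z ∩ U)) ?_ ?_ ?_ ?_ ?_
  · intro q hq
    rw [Finset.mem_product, Finset.mem_powerset, Finset.mem_powerset] at hq
    rw [Finset.mem_powerset]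
    exact Finset.union_subset_union hq.1 hq.2
  · intro z hz
    rw [Finset.mem_product, Finset.mem_powerset, Finset.mem_powerset]
    exact ⟨Finset.inter_subset_right, Finset.inter_subset_right⟩
  · intro q hq
    rw [Finset.mem_product, Finset.mem_powerset, Finset.mem_powerset] at hq
    have h1 : (q.1 ∪ q.2) ∩ T = q.1 := by
      rw [Finset.union_inter_distrib_right, Finset.inter_eq_left.mpr hq.1]
      have : q.2 ∩ T = ∅ := by
        rw [← Finset.disjoint_iff_inter_eq_empty]
        exact (Finset.disjoint_of_subset_right hq.2 hd).symm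
      rw [this, Finset.union_empty]
    have h2 : (q.1 ∪ q.2) ∩ U = q.2 := by
      rw [Finset.union_inter_distrib_right, Finset.inter_eq_left.mpr hq.2]
      have : q.1 ∩ U = ∅ := by
        rw [← Finset.disjoint_iff_inter_eq_empty]
        exact Finset.disjoint_of_subset_left hq.1 hd
      rw [this, Finset.empty_union]
    simp only [h1, h2]
  · intro z hz
    rw [Finset.mem_powerset] at hz
    simp only
    rw [← Finset.inter_union_distrib_left]
    exact Finset.inter_eq_left.mpr hz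
  · intro q _
    rfl

/-- Tensorisation of the functional form over disjoint ground sets. -/
theorem tensor {ι : Type*} [DecidableEq ι] (S : ι → Finset (Sym2 V)) (I : Finset ι) :
    (∀ i ∈ I, ∀ e ∈ S i, ¬ e.IsDiag) → (I : Set ι).PairwiseDisjoint S →
    ∀ (a b : Finset (Sym2 V) → ℝ), (∀ x, 0 ≤ a x) → (∀ x, 0 ≤ b x) → ∀ K : ℝ, 0 ≤ K →
    (∀ x ⊆ I.biUnion S, ∀ y ⊆ I.biUnion S, a x * b y ≤ K * ∏ i ∈ I, 2 ^ chi (x ∩ y ∩ S i)) →
    (∑ x ∈ (I.biUnion S).powerset, a x) * (∑ y ∈ (I.biUnion S).powerset, b y) ≤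
      K * 8 ^ #I * 4 ^ #(I.biUnion S) := by
  classical
  induction I using Finset.induction_on with
  | empty =>
    intro _ _ a b _ _ K _ h
    have := h ∅ (by simp) ∅ (by simp)
    simpa using this
  | insert i I hi ih =>
    intro hdiag hdisj a b ha hb K hK h
    have hdisj' : (I : Set ι).PairwiseDisjoint S :=
      hdisj.subset (by rw [Finset.coe_insert]; exact Set.subset_insert _ _)
    have hdiag' : ∀ j ∈ I, ∀ e ∈ S j, ¬ e.IsDiag := fun j hj =>
      hdiag j (Finset.mem_insert_of_mem hj)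
    set U := I.biUnion S with hU
    have hTU : Disjoint (S i) U := by
      rw [hU, Finset.disjoint_biUnion_right]
      intro j hj
      apply hdisj (Finset.mem_coe.mpr (Finset.mem_insert_self i I))
        (Finset.mem_coe.mpr (Finset.mem_insert_of_mem hj))
      rintro rfl
      exact hi hj
    have hbU : (insert i I).biUnion S = S i ∪ U := by
      rw [Finset.biUnion_insert]
    rw [hbU] at h ⊢
    rw [sum_powerset_union _ _ hTU, sum_powerset_union _ _ hTU,
      Finset.card_union_of_disjoint hTU, Finset.card_insert_of_notMem hi]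
    have hsub : ∀ j ∈ I, S j ⊆ U := fun j hj => Finset.subset_biUnion_of_mem S hj
    have step : ∀ x1 ⊆ S i, ∀ y1 ⊆ S i,
        (∑ x2 ∈ U.powerset, a (x1 ∪ x2)) * (∑ y2 ∈ U.powerset, b (y1 ∪ y2)) ≤
          (K * 8 ^ #I * 4 ^ #U) * 2 ^ chi (x1 ∩ y1) := by
      intro x1 hx1 y1 hy1
      have := ih hdiag' hdisj' (fun x2 => a (x1 ∪ x2)) (fun y2 => b (y1 ∪ y2))
        (fun _ => ha _) (fun _ => hb _) (K * 2 ^ chi (x1 ∩ y1)) (by positivity) ?_
      · calc _ ≤ _ := this
          _ = _ := by ring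
      · intro x2 hx2 y2 hy2
        have h1 := h (x1 ∪ x2) (Finset.union_subset_union hx1 hx2) (y1 ∪ y2)
          (Finset.union_subset_union hy1 hy2)
        rw [Finset.prod_insert hi] at h1
        have e0 : (x1 ∪ x2) ∩ (y1 ∪ y2) ∩ S i = x1 ∩ y1 := by
          ext e
          simp only [Finset.mem_inter, Finset.mem_union]
          constructor
          · rintro ⟨⟨hx, hy⟩, hS⟩
            have hn : e ∉ U := fun hu => (Finset.disjoint_left.mp hTU) hS hu
            exact ⟨hx.resolve_right (fun h => hn (hx2 h)), hy.resolve_right (fun h => hn (hy2 h))⟩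
          · rintro ⟨hx, hy⟩
            exact ⟨⟨Or.inl hx, Or.inl hy⟩, hx1 hx⟩
        have e1 : ∀ j ∈ I, (x1 ∪ x2) ∩ (y1 ∪ y2) ∩ S j = x2 ∩ y2 ∩ S j := by
          intro j hj
          ext e
          simp only [Finset.mem_inter, Finset.mem_union]
          constructor
          · rintro ⟨⟨hx, hy⟩, hS⟩
            have hn : e ∉ S i := fun hu => (Finset.disjoint_left.mp hTU) hu (hsub j hj hS)
            exact ⟨⟨hx.resolve_left (fun h => hn (hx1 h)), hy.resolve_left (fun h => hn (hy1 h))⟩,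
              hS⟩
          · rintro ⟨⟨hx, hy⟩, hS⟩
            exact ⟨⟨Or.inr hx, Or.inr hy⟩, hS⟩
        rw [e0] at h1
        have e2 : ∏ j ∈ I, (2 : ℝ) ^ chi ((x1 ∪ x2) ∩ (y1 ∪ y2) ∩ S j) =
            ∏ j ∈ I, (2 : ℝ) ^ chi (x2 ∩ y2 ∩ S j) :=
          Finset.prod_congr rfl (fun j hj => by rw [e1 j hj])
        rw [e2] at h1
        calc _ ≤ _ := h1
          _ = _ := by ring
    have hS' : ∀ e ∈ S i, ¬ e.IsDiag := hdiag i (Finset.mem_insert_self i I)
    have fin := single_part (S i) hS' (fun x1 => ∑ x2 ∈ U.powerset, a (x1 ∪ x2))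
      (fun y1 => ∑ y2 ∈ U.powerset, b (y1 ∪ y2)) (fun _ => Finset.sum_nonneg (fun _ _ => ha _))
      (fun _ => Finset.sum_nonneg (fun _ _ => hb _)) (K * 8 ^ #I * 4 ^ #U) (by positivity) step
    calc _ ≤ _ := fin
      _ = _ := by rw [pow_add, pow_succ]; ring

/-- The main bound for cross-`t`-chromatic-intersecting families, with a free parameter `s`. -/
theorem cross_quadratic (S : Finset (Sym2 V)) (hS : ∀ e ∈ S, ¬ e.IsDiag)
    (A B : Finset (Finset (Sym2 V))) (hA : ∀ x ∈ A, x ⊆ S) (hB : ∀ x ∈ B, x ⊆ S) (t s : ℕ)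
    (hs : 0 < s) (h : ∀ x ∈ A, ∀ y ∈ B, t ≤ chi (x ∩ y)) :
    (#A : ℝ) * #B * (2 ^ t) ^ s ≤ (8 ^ s) ^ s * 4 ^ #S := by
  classical
  rcases isEmpty_or_nonempty V with hV | hV
  · have hSe : S = ∅ := by
      rw [Finset.eq_empty_iff_forall_notMem]
      intro e
      induction e using Sym2.ind with
      | _ u v => exact (IsEmpty.false u).elim
    have hchi : ∀ x : Finset (Sym2 V), chi x = 0 := by
      intro x
      have : chi x ≤ 0 := chi_le (by
        have := SimpleGraph.colorable_of_fintype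
          (SimpleGraph.fromEdgeSet (x : Set (Sym2 V)))
        simpa using this)
      omega
    rcases A.eq_empty_or_nonempty with h0 | ⟨x, hx⟩
    · subst h0
      have : (0 : ℝ) ≤ (8 ^ s) ^ s * 4 ^ #S := by positivity
      simp
    rcases B.eq_empty_or_nonempty with h0 | ⟨y, hy⟩
    · subst h0
      have : (0 : ℝ) ≤ (8 ^ s) ^ s * 4 ^ #S := by positivity
      simp
    have ht : t = 0 := by
      have := h x hx y hy
      rw [hchi] at this
      omega
    subst ht
    have hApow : #A ≤ 2 ^ #S := by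
      rw [← Finset.card_powerset]
      exact Finset.card_le_card (fun x hx => Finset.mem_powerset.mpr (hA x hx))
    have hBpow : #B ≤ 2 ^ #S := by
      rw [← Finset.card_powerset]
      exact Finset.card_le_card (fun x hx => Finset.mem_powerset.mpr (hB x hx))
    have h1 : (#A : ℝ) ≤ 2 ^ #S := by exact_mod_cast hApow
    have h2 : (#B : ℝ) ≤ 2 ^ #S := by exact_mod_cast hBpow
    have h8 : (1 : ℝ) ≤ (8 ^ s) ^ s := one_le_pow₀ (one_le_pow₀ (by norm_num))
    calc (#A : ℝ) * #B * (2 ^ 0) ^ s = (#A : ℝ) * #B := by simp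
      _ ≤ 2 ^ #S * 2 ^ #S := mul_le_mul h1 h2 (by positivity) (by positivity)
      _ = 1 * 4 ^ #S := by rw [← mul_pow]; norm_num
      _ ≤ (8 ^ s) ^ s * 4 ^ #S := mul_le_mul_of_nonneg_right h8 (by positivity)
  set k : ℕ := s ^ (Fintype.card V - 1) with hk
  have hkpos : 0 < k := Nat.pow_pos hs
  have hN : Fintype.card (V → Fin s) = s * k := by
    rw [Fintype.card_fun, Fintype.card_fin, hk, ← pow_succ']
    congr 1
    have := Fintype.card_pos (α := V)
    omega
  have hcov : ∀ e ∈ S, #{φ ∈ (univ : Finset (V → Fin s)) | e ∈ cls φ} = k :=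
    fun e he => card_cover s e (hS e he)
  have shA := shearer (univ : Finset (V → Fin s)) (fun φ => cls φ) k hkpos S A hA hcov
  have shB := shearer (univ : Finset (V → Fin s)) (fun φ => cls φ) k hkpos S B hB hcov
  have hloc : ∀ φ : V → Fin s, (#(trace A (cls φ)) : ℝ) * #(trace B (cls φ)) * 2 ^ t ≤
      8 ^ s * 4 ^ #(S ∩ cls φ) := by
    intro φ
    set T : Fin s → Finset (Sym2 V) := fun i => S ∩ part φ i with hT
    have hTU : (univ : Finset (Fin s)).biUnion T = S ∩ cls φ := by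
      ext e
      rw [Finset.mem_biUnion]
      induction e using Sym2.ind with
      | _ u v =>
        simp only [hT, Finset.mem_inter, mk_mem_part, mk_mem_cls, Finset.mem_univ, true_and]
        constructor
        · rintro ⟨i, h1, h2, h3⟩
          exact ⟨h1, h2.trans h3.symm⟩
        · rintro ⟨h1, h2⟩
          exact ⟨φ v, h1, h2, rfl⟩
    have hTdiag : ∀ i ∈ (univ : Finset (Fin s)), ∀ e ∈ T i, ¬ e.IsDiag := fun i _ e he =>
      hS e (Finset.mem_inter.mp he).1
    have hTdisj : ((univ : Finset (Fin s)) : Set (Fin s)).PairwiseDisjoint T := by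
      intro i _ j _ hij
      exact Finset.disjoint_of_subset_left Finset.inter_subset_right
        (Finset.disjoint_of_subset_right Finset.inter_subset_right (part_disjoint φ hij))
    have hten := tensor T univ hTdiag hTdisj
      (fun x => if x ∈ trace A (cls φ) then (1 : ℝ) else 0)
      (fun x => if x ∈ trace B (cls φ) then (1 : ℝ) else 0)
      (fun x => by split_ifs <;> norm_num)
      (fun x => by split_ifs <;> norm_num)
      ((1 / 2) ^ t) (by positivity) ?_
    · have hsumA : ∑ x ∈ (S ∩ cls φ).powerset, (if x ∈ trace A (cls φ) then (1 : ℝ) else 0) =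
          #(trace A (cls φ)) := by
        rw [Finset.sum_ite_mem, Finset.sum_const, nsmul_eq_mul, mul_one,
          Finset.inter_eq_right.mpr]
        intro z hz
        obtain ⟨x, hx, rfl⟩ := mem_trace.mp hz
        exact Finset.mem_powerset.mpr (Finset.inter_subset_inter_right (hA x hx))
      have hsumB : ∑ x ∈ (S ∩ cls φ).powerset, (if x ∈ trace B (cls φ) then (1 : ℝ) else 0) =
          #(trace B (cls φ)) := by
        rw [Finset.sum_ite_mem, Finset.sum_const, nsmul_eq_mul, mul_one,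
          Finset.inter_eq_right.mpr]
        intro z hz
        obtain ⟨x, hx, rfl⟩ := mem_trace.mp hz
        exact Finset.mem_powerset.mpr (Finset.inter_subset_inter_right (hB x hx))
      rw [hTU, hsumA, hsumB, Finset.card_univ, Fintype.card_fin] at hten
      calc (#(trace A (cls φ)) : ℝ) * #(trace B (cls φ)) * 2 ^ t ≤
          ((1 / 2) ^ t * 8 ^ s * 4 ^ #(S ∩ cls φ)) * 2 ^ t :=
            mul_le_mul_of_nonneg_right hten (by positivity)
        _ = ((1 / 2) ^ t * 2 ^ t) * (8 ^ s * 4 ^ #(S ∩ cls φ)) := by ring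
        _ = 8 ^ s * 4 ^ #(S ∩ cls φ) := by
            rw [← mul_pow]; norm_num
    · intro x _ y _
      by_cases hx : x ∈ trace A (cls φ)
      · by_cases hy : y ∈ trace B (cls φ)
        · rw [if_pos hx, if_pos hy]
          obtain ⟨x', hx', rfl⟩ := mem_trace.mp hx
          obtain ⟨y', hy', rfl⟩ := mem_trace.mp hy
          have h1 := h x' hx' y' hy'
          have h2 := chi_le_sum φ (x' ∩ y')
          have h3 : ∀ i : Fin s, x' ∩ cls φ ∩ (y' ∩ cls φ) ∩ T i = x' ∩ y' ∩ part φ i := by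
            intro i
            ext e
            induction e using Sym2.ind with
            | _ u v =>
              simp only [hT, Finset.mem_inter, mk_mem_part, mk_mem_cls]
              constructor
              · rintro ⟨⟨⟨h1, _⟩, h2, _⟩, _, h3⟩
                exact ⟨⟨h1, h2⟩, h3⟩
              · rintro ⟨⟨h1, h2⟩, h3⟩
                have : φ u = φ v := h3.1.trans h3.2.symm
                exact ⟨⟨⟨h1, this⟩, h2, this⟩, hA _ hx' h1, h3⟩
          simp_rw [h3]
          rw [Finset.prod_pow_eq_pow_sum]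
          have h4 : (2 : ℝ) ^ t ≤ 2 ^ (∑ i, chi (x' ∩ y' ∩ part φ i)) :=
            pow_le_pow_right₀ (by norm_num) (h1.trans h2)
          calc (1 : ℝ) * 1 = (1 / 2) ^ t * 2 ^ t := by rw [← mul_pow]; norm_num
            _ ≤ _ := mul_le_mul_of_nonneg_left h4 (by positivity)
        · rw [if_neg hy, mul_zero]
          positivity
      · rw [if_neg hx, zero_mul]
        positivity
  have hprod : (∏ φ : V → Fin s, ((#(trace A (cls φ)) : ℝ) * #(trace B (cls φ)) * 2 ^ t)) ≤
      ∏ φ : V → Fin s, (8 ^ s * (4 : ℝ) ^ #(S ∩ cls φ)) :=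
    Finset.prod_le_prod (fun φ _ => by positivity) (fun φ _ => hloc φ)
  have hR : (∏ φ : V → Fin s, (8 ^ s * (4 : ℝ) ^ #(S ∩ cls φ))) = ((8 ^ s) ^ s * 4 ^ #S) ^ k := by
    rw [Finset.prod_mul_distrib, Finset.prod_const, Finset.card_univ, hN,
      Finset.prod_pow_eq_pow_sum univ (fun φ : V → Fin s => #(S ∩ cls φ)) (4 : ℝ),
      sum_card_cls s S hS, mul_pow, ← pow_mul (8 ^ s : ℝ) s k, pow_mul (4 : ℝ)]
  have hL : (∏ φ : V → Fin s, ((#(trace A (cls φ)) : ℝ) * #(trace B (cls φ)) * 2 ^ t)) =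
      (∏ φ : V → Fin s, (#(trace A (cls φ)) : ℝ)) * (∏ φ : V → Fin s, (#(trace B (cls φ)) : ℝ)) *
      ((2 ^ t) ^ s) ^ k := by
    rw [Finset.prod_mul_distrib, Finset.prod_mul_distrib, Finset.prod_const, Finset.card_univ, hN,
      pow_mul (2 ^ t : ℝ) s k]
  have hfin : ((#A : ℝ) * #B * (2 ^ t) ^ s) ^ k ≤ ((8 ^ s) ^ s * 4 ^ #S) ^ k := by
    calc ((#A : ℝ) * #B * (2 ^ t) ^ s) ^ k
        = (#A : ℝ) ^ k * (#B : ℝ) ^ k * ((2 ^ t) ^ s) ^ k := by ring
      _ ≤ (∏ φ : V → Fin s, (#(trace A (cls φ)) : ℝ)) *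
          (∏ φ : V → Fin s, (#(trace B (cls φ)) : ℝ)) * ((2 ^ t) ^ s) ^ k := by
          apply mul_le_mul_of_nonneg_right _ (by positivity)
          exact mul_le_mul shA shB (by positivity) (Finset.prod_nonneg (fun _ _ => by positivity))
      _ = _ := hL.symm
      _ ≤ _ := hprod
      _ = _ := hR
  exact (pow_le_pow_iff_left₀ (by positivity) (by positivity) hkpos.ne').mp hfin

end Pool.Agent.Helper57
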