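import Mathlib
/-! Moments of the invariant measure on the unit sphere of `ℂ^d` (helper57 for helper75,
part of MP_0ce5f1_an). -/
namespace Pool.Agent.Helper75.KT
open scoped ComplexOrder Nat
open MeasureTheory

/-- the unit sphere of `ℂ^d` -/
def USph (d : ℕ) : Set (Fin d → ℂ) := {z | ∑ i, Complex.normSq (z i) = 1}

/-- monomials on the sphere -/
noncomputable def mono {d : ℕ} (α : Fin d → ℕ) : C(USph d, ℂ) :=
  ⟨fun z => ∏ i, (z.1 i) ^ (α i),
    continuous_finsetProd _ fun i _ => ((continuous_apply i).comp continuous_subtype_val).pow _⟩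

/-- Beta integral with natural parameters -/
theorem beta_nat (a b : ℕ) :
    ∫ s in (0:ℝ)..1, ((s : ℂ) ^ a * (1 - (s : ℂ)) ^ b) = (a ! : ℂ) * (b ! : ℂ) / ((a + b + 1)! : ℂ) := by
  have h := Complex.Gamma_mul_Gamma_eq_betaIntegral (s := (a : ℂ) + 1) (t := (b : ℂ) + 1)
    (by simp; positivity) (by simp; positivity)
  have h2 : ((a : ℂ) + 1 + ((b : ℂ) + 1)) = ((a + b + 1 : ℕ) : ℂ) + 1 := by push_cast; ring
  rw [h2, Complex.Gamma_nat_eq_factorial, Complex.Gamma_nat_eq_factorial,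
    Complex.Gamma_nat_eq_factorial] at h
  have h3 : Complex.betaIntegral ((a : ℂ) + 1) ((b : ℂ) + 1) =
      ∫ s in (0:ℝ)..1, ((s : ℂ) ^ a * (1 - (s : ℂ)) ^ b) := by
    unfold Complex.betaIntegral
    refine intervalIntegral.integral_congr fun s _ => ?_
    simp only [add_sub_cancel_right, Complex.cpow_natCast]
  rw [h3] at h
  have h4 : ((a + b + 1)! : ℂ) ≠ 0 := by exact_mod_cast Nat.factorial_ne_zero _
  rw [eq_div_iff h4, h]; ring

/-- the moment property of a measure -/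
def HasMom (d N : ℕ) (μ : Measure (USph d)) : Prop :=
  ∀ α β : Fin d → ℕ, ∑ i, α i ≤ N → ∑ i, α i = ∑ i, β i →
    ∫ z, (mono α * star (mono β) : C(USph d, ℂ)) z ∂μ =
      if α = β then (∏ i, ((α i)! : ℂ)) * ((d - 1)! : ℂ) / ((∑ i, α i + d - 1)! : ℂ) else 0

theorem hasMom_one (N : ℕ) : ∃ μ : Measure (USph 1), IsFiniteMeasure μ ∧ HasMom 1 N μ := by
  have h1 : (fun _ : Fin 1 => (1 : ℂ)) ∈ USph 1 := by simp [USph]
  refine ⟨Measure.dirac ⟨_, h1⟩, inferInstance, ?_⟩
  intro α β _ hab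
  have hαβ : α = β := by
    funext i
    have : i = 0 := Subsingleton.elim _ _
    subst this
    simpa using hab
  subst hαβ
  rw [integral_dirac]
  simp [mono]
  rw [div_self]
  exact_mod_cast Nat.factorial_ne_zero _

/-- clamp to [0,1] -/
noncomputable def cl (s : ℝ) : ℝ := max 0 (min 1 s)

theorem cl_nonneg (s : ℝ) : 0 ≤ cl s := le_max_left _ _
theorem cl_le_one (s : ℝ) : cl s ≤ 1 := max_le zero_le_one (min_le_left _ _)
theorem cl_eq {s : ℝ} (h0 : 0 ≤ s) (h1 : s ≤ 1) : cl s = s := by simp [cl, h0, h1]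
theorem continuous_cl : Continuous cl := by unfold cl; fun_prop

/-- the map used in the induction step -/
noncomputable def stepMap {d : ℕ} (w : ℂ) (hw : ‖w‖ = 1) (z : USph d) (s : ℝ) : USph (d + 1) :=
  ⟨Fin.cons (w * (Real.sqrt (1 - cl s) : ℂ)) (fun i => (Real.sqrt (cl s) : ℂ) * z.1 i), by
    have hz : ∑ i, Complex.normSq (z.1 i) = 1 := z.2
    have hw' : Complex.normSq w = 1 := by rw [Complex.normSq_eq_norm_sq, hw]; norm_num
    have h0 := cl_nonneg s
    have h1 := cl_le_one s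
    show ∑ i, Complex.normSq _ = 1
    rw [Fin.sum_univ_succ]
    simp only [Fin.cons_zero, Fin.cons_succ, Complex.normSq_mul, Complex.normSq_ofReal, hw',
      Real.mul_self_sqrt h0, Real.mul_self_sqrt (sub_nonneg.2 h1), ← Finset.mul_sum, hz]
    ring⟩

theorem continuous_stepMap {d : ℕ} (w : ℂ) (hw : ‖w‖ = 1) :
    Continuous (fun p : USph d × ℝ => stepMap w hw p.1 p.2) := by
  unfold stepMap
  refine Continuous.subtype_mk ?_ _
  refine continuous_pi fun i => ?_
  have hc := continuous_cl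
  refine Fin.cases ?_ (fun j => ?_) i
  · simp only [Fin.cons_zero]
    fun_prop
  · simp only [Fin.cons_succ]
    have : Continuous fun p : USph d × ℝ => p.1.1 j :=
      (continuous_apply j).comp (continuous_subtype_val.comp continuous_fst)
    fun_prop


theorem mono_stepMap {d : ℕ} (w : ℂ) (hw : ‖w‖ = 1) (z : USph d) (s : ℝ) (α : Fin (d + 1) → ℕ) :
    mono α (stepMap w hw z s) = mono (fun i => α (Fin.succ i)) z *
      ((Real.sqrt (1 - cl s) : ℂ) ^ (α 0) * (Real.sqrt (cl s) : ℂ) ^ (∑ i, α (Fin.succ i))) *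
        w ^ (α 0) := by
  simp only [mono, stepMap, ContinuousMap.coe_mk, Fin.prod_univ_succ, Fin.cons_zero, Fin.cons_succ,
    mul_pow, Finset.prod_mul_distrib, Finset.prod_pow_eq_pow_sum]
  ring

theorem phase_sum (N : ℕ) (a b : ℕ) (ha : a ≤ N) (hb : b ≤ N) :
    ∑ q : Fin (N + 1), ((Complex.exp (2 * Real.pi * Complex.I / ((N + 1 : ℕ) : ℂ))) ^ (q : ℕ)) ^ a *
      star (((Complex.exp (2 * Real.pi * Complex.I / ((N + 1 : ℕ) : ℂ))) ^ (q : ℕ)) ^ b) =
      if a = b then ((N + 1 : ℕ) : ℂ) else 0 := by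
  have hprim := Complex.isPrimitiveRoot_exp (N + 1) (Nat.succ_ne_zero N)
  set w := Complex.exp (2 * Real.pi * Complex.I / ((N + 1 : ℕ) : ℂ)) with hw
  have hnorm : ‖w‖ = 1 := hprim.norm'_eq_one (Nat.succ_ne_zero N)
  have hstar : star w * w = 1 := by
    have := Complex.normSq_eq_conj_mul_self (z := w)
    rw [Complex.normSq_eq_norm_sq, hnorm] at this
    simpa using this.symm
  have h1 : ∀ q : Fin (N + 1), (w ^ (q : ℕ)) ^ a * star ((w ^ (q : ℕ)) ^ b) =
      (w ^ a * (star w) ^ b) ^ (q : ℕ) := by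
    intro q
    rw [star_pow, star_pow, mul_pow, ← pow_mul, ← pow_mul, ← pow_mul, ← pow_mul, mul_comm a,
      mul_comm b]
  rw [Finset.sum_congr rfl fun q _ => h1 q]
  split_ifs with hab
  · subst hab
    have : w ^ a * star w ^ a = 1 := by rw [← mul_pow, mul_comm, hstar, one_pow]
    simp only [this, one_pow, Finset.sum_const, Finset.card_univ, Fintype.card_fin, nsmul_eq_mul,
      mul_one]
  · have hne : w ^ a * star w ^ b ≠ 1 := by
      intro h
      apply hab
      apply hprim.pow_inj (Nat.lt_succ_of_le ha) (Nat.lt_succ_of_le hb)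
      calc w ^ a = w ^ a * (star w ^ b * w ^ b) := by rw [← mul_pow, hstar, one_pow, mul_one]
        _ = w ^ b := by rw [← mul_assoc, h, one_mul]
    rw [Fin.sum_univ_eq_sum_range (fun q => (w ^ a * star w ^ b) ^ q) (N + 1), geom_sum_eq hne]
    have : (w ^ a * star w ^ b) ^ (N + 1) = 1 := by
      rw [mul_pow, ← pow_mul, ← pow_mul, mul_comm a, mul_comm b, pow_mul, pow_mul, ← star_pow,
        hprim.pow_eq_one]
      simp
    rw [this]; simp


theorem isCompact_USph (d : ℕ) : IsCompact (USph d) := by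
  refine Metric.isCompact_of_isClosed_isBounded ?_ ?_
  · exact isClosed_eq (continuous_finsetSum _ fun i _ =>
      Complex.continuous_normSq.comp (continuous_apply i)) continuous_const
  · refine (Metric.isBounded_closedBall (x := (0 : Fin d → ℂ)) (r := 1)).subset ?_
    intro z hz
    rw [mem_closedBall_zero_iff, pi_norm_le_iff_of_nonneg zero_le_one]
    intro i
    have h : Complex.normSq (z i) ≤ 1 := by
      rw [← show ∑ i, Complex.normSq (z i) = 1 from hz]
      exact Finset.single_le_sum (f := fun i => Complex.normSq (z i))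
        (fun i _ => Complex.normSq_nonneg _) (Finset.mem_univ i)
    rw [Complex.normSq_eq_norm_sq] at h
    nlinarith [norm_nonneg (z i)]

instance (d : ℕ) : CompactSpace (USph d) := isCompact_iff_compactSpace.1 (isCompact_USph d)

theorem integrable_cont {d : ℕ} (f : C(USph d, ℂ)) (μ : Measure (USph d)) [IsFiniteMeasure μ] :
    Integrable (fun z => f z) μ :=
  f.continuous.integrable_of_hasCompactSupport (HasCompactSupport.of_compactSpace _)

/-- the density measure in the step -/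
noncomputable def nu (d : ℕ) : Measure ℝ :=
  (volume.restrict (Set.Ioc (0 : ℝ) 1)).withDensity (fun s => ENNReal.ofReal (d * s ^ (d - 1)))

instance (d : ℕ) : IsFiniteMeasure (nu d) := by
  refine isFiniteMeasure_withDensity_ofReal (Integrable.hasFiniteIntegral ?_)
  have : Continuous fun s : ℝ => (d : ℝ) * s ^ (d - 1) := by fun_prop
  exact (this.integrableOn_Icc (a := 0) (b := 1)).mono_set Set.Ioc_subset_Icc_self

theorem integral_nu (d : ℕ) (g : ℝ → ℂ) :
    ∫ s, g s ∂(nu d) = ∫ s in (0:ℝ)..1, ((d : ℂ) * (s : ℂ) ^ (d - 1)) * g s := by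
  unfold nu
  rw [integral_withDensity_eq_integral_toReal_smul (by fun_prop)
    (Filter.Eventually.of_forall fun _ => ENNReal.ofReal_lt_top),
    intervalIntegral.integral_of_le zero_le_one]
  refine setIntegral_congr_fun measurableSet_Ioc fun s hs => ?_
  have : 0 ≤ (d : ℝ) * s ^ (d - 1) := mul_nonneg (Nat.cast_nonneg _) (pow_nonneg hs.1.le _)
  simp only [ENNReal.toReal_ofReal this, Complex.real_smul]
  push_cast
  ring

theorem integral_nu_moment (d : ℕ) (hd : 1 ≤ d) (a m : ℕ) :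
    ∫ s, (((Real.sqrt (1 - cl s) : ℂ) ^ a * (Real.sqrt (cl s) : ℂ) ^ m) *
      star ((Real.sqrt (1 - cl s) : ℂ) ^ a * (Real.sqrt (cl s) : ℂ) ^ m)) ∂(nu d) =
      (d : ℂ) * (((m + d - 1)! : ℂ) * (a ! : ℂ) / ((m + a + d)! : ℂ)) := by
  rw [integral_nu]
  have h := beta_nat (m + d - 1) a
  have h2 : m + d - 1 + a + 1 = m + a + d := by omega
  rw [h2] at h
  rw [← h, ← intervalIntegral.integral_const_mul]
  refine intervalIntegral.integral_congr fun s hs => ?_
  rw [Set.uIcc_of_le zero_le_one] at hs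
  have e1 : (Real.sqrt (1 - cl s) : ℂ) * (Real.sqrt (1 - cl s) : ℂ) = 1 - s := by
    rw [cl_eq hs.1 hs.2]
    rw [← Complex.ofReal_mul, Real.mul_self_sqrt (sub_nonneg.2 hs.2)]
    push_cast; ring
  have e2 : (Real.sqrt (cl s) : ℂ) * (Real.sqrt (cl s) : ℂ) = s := by
    rw [cl_eq hs.1 hs.2]
    rw [← Complex.ofReal_mul, Real.mul_self_sqrt hs.1]
  have e3 : m + d - 1 = (d - 1) + m := by omega
  simp only [star_mul', star_pow, Complex.star_def, Complex.conj_ofReal]
  calc (d : ℂ) * (s : ℂ) ^ (d - 1) * (((Real.sqrt (1 - cl s) : ℂ) ^ a * (Real.sqrt (cl s) : ℂ) ^ m) *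
      ((Real.sqrt (1 - cl s) : ℂ) ^ a * (Real.sqrt (cl s) : ℂ) ^ m))
      = (d : ℂ) * (s : ℂ) ^ (d - 1) * (((Real.sqrt (1 - cl s) : ℂ) * (Real.sqrt (1 - cl s) : ℂ)) ^ a *
        ((Real.sqrt (cl s) : ℂ) * (Real.sqrt (cl s) : ℂ)) ^ m) := by
        rw [mul_pow, mul_pow]; ring
    _ = (d : ℂ) * ((s : ℂ) ^ (m + d - 1) * (1 - (s : ℂ)) ^ a) := by
        rw [e1, e2, e3, pow_add]; ring

theorem hasMom_step (d N : ℕ) (hd : 1 ≤ d) (μ : Measure (USph d)) [IsFiniteMeasure μ]
    (h : HasMom d N μ) :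
    ∃ μ' : Measure (USph (d + 1)), IsFiniteMeasure μ' ∧ HasMom (d + 1) N μ' := by
  classical
  set w := Complex.exp (2 * Real.pi * Complex.I / ((N + 1 : ℕ) : ℂ)) with hw
  have hprim : IsPrimitiveRoot w (N + 1) := Complex.isPrimitiveRoot_exp (N + 1) (Nat.succ_ne_zero N)
  have hnorm : ‖w‖ = 1 := hprim.norm'_eq_one (Nat.succ_ne_zero N)
  have hnormq : ∀ q : ℕ, ‖w ^ q‖ = 1 := fun q => by rw [norm_pow, hnorm, one_pow]
  let Φ : ℕ → USph d × ℝ → USph (d + 1) := fun q p => stepMap (w ^ q) (hnormq q) p.1 p.2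
  have hΦ : ∀ q, Continuous (Φ q) := fun q => continuous_stepMap _ _
  let μ' : Measure (USph (d + 1)) := ((N + 1 : ℕ) : ENNReal)⁻¹ •
    ∑ q : Fin (N + 1), Measure.map (Φ q) (μ.prod (nu d))
  have hfin : IsFiniteMeasure μ' := by
    have : ((N + 1 : ℕ) : ENNReal)⁻¹ ≠ ⊤ := by simp
    have h2 : IsFiniteMeasure (∑ q : Fin (N + 1), Measure.map (Φ q) (μ.prod (nu d))) :=
      inferInstance
    exact Measure.smul_finite _ this
  refine ⟨μ', hfin, ?_⟩
  intro α β hN hαβ
  have hint : ∀ q : Fin (N + 1), Integrable (fun z => (mono α * star (mono β) : C(USph (d+1), ℂ)) z)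
      (Measure.map (Φ q) (μ.prod (nu d))) := fun q => integrable_cont _ _
  show ∫ z, (mono α * star (mono β) : C(USph (d+1), ℂ)) z ∂(((N + 1 : ℕ) : ENNReal)⁻¹ •
    ∑ q : Fin (N + 1), Measure.map (Φ q) (μ.prod (nu d))) = _
  rw [integral_smul_measure, integral_finsetSum_measure fun q _ => hint q]
  -- tails
  set α' : Fin d → ℕ := fun i => α (Fin.succ i) with hα'
  set β' : Fin d → ℕ := fun i => β (Fin.succ i) with hβ'
  set G : ℝ → ℂ := fun s => ((Real.sqrt (1 - cl s) : ℂ) ^ (α 0) * (Real.sqrt (cl s) : ℂ) ^ (∑ i, α' i)) *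
      star ((Real.sqrt (1 - cl s) : ℂ) ^ (β 0) * (Real.sqrt (cl s) : ℂ) ^ (∑ i, β' i)) with hG
  have key : ∀ q : Fin (N + 1),
      ∫ z, (mono α * star (mono β) : C(USph (d+1), ℂ)) z ∂(Measure.map (Φ q) (μ.prod (nu d))) =
      ((∫ z, (mono α' * star (mono β') : C(USph d, ℂ)) z ∂μ) * ∫ s, G s ∂(nu d)) *
        ((w ^ (q : ℕ)) ^ (α 0) * star ((w ^ (q : ℕ)) ^ (β 0))) := by
    intro q
    rw [integral_map (hΦ q).measurable.aemeasurable
      (ContinuousMap.continuous _).aestronglyMeasurable, ← integral_prod_mul,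
      ← integral_mul_const]
    refine integral_congr_ae (Filter.Eventually.of_forall fun p => ?_)
    simp only [ContinuousMap.mul_apply, ContinuousMap.star_apply, Φ, mono_stepMap, hG, hα', hβ',
      star_mul']
    ring
  rw [Finset.sum_congr rfl fun q _ => key q, ← Finset.mul_sum,
    phase_sum N (α 0) (β 0) ((Finset.single_le_sum (f := α) (fun i _ => Nat.zero_le _)
      (Finset.mem_univ 0)).trans hN) ((Finset.single_le_sum (f := β) (fun i _ => Nat.zero_le _)
      (Finset.mem_univ 0)).trans (hαβ ▸ hN))]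
  have hsα : ∑ i, α i = α 0 + ∑ i, α' i := Fin.sum_univ_succ α
  have hsβ : ∑ i, β i = β 0 + ∑ i, β' i := Fin.sum_univ_succ β
  by_cases h0 : α 0 = β 0
  · have hs : ∑ i, α' i = ∑ i, β' i := by omega
    have hN' : ∑ i, α' i ≤ N := by omega
    have hGint : ∫ s, G s ∂(nu d) = (d : ℂ) * (((∑ i, α' i + d - 1)! : ℂ) * ((α 0)! : ℂ) /
        ((∑ i, α' i + α 0 + d)! : ℂ)) := by
      rw [hG, ← h0, ← hs]
      exact integral_nu_moment d hd (α 0) (∑ i, α' i)
    rw [h α' β' hN' hs, hGint, if_pos h0]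
    have hab : α = β ↔ α' = β' := by
      constructor
      · rintro rfl; rfl
      · intro h'
        funext i
        refine Fin.cases h0 (fun j => ?_) i
        exact congrFun h' j
    by_cases hc : α' = β'
    · rw [if_pos hc, if_pos (hab.2 hc)]
      have hf1 : ((∑ i, α' i + d - 1)! : ℂ) ≠ 0 := by exact_mod_cast Nat.factorial_ne_zero _
      have hf2 : ((∑ i, α' i + α 0 + d)! : ℂ) ≠ 0 := by exact_mod_cast Nat.factorial_ne_zero _
      have hN1 : ((N + 1 : ℕ) : ℂ) ≠ 0 := by exact_mod_cast Nat.succ_ne_zero N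
      have hd' : ((d + 1 - 1)! : ℂ) = (d : ℂ) * ((d - 1)! : ℂ) := by
        rw [Nat.add_sub_cancel]
        exact_mod_cast (Nat.mul_factorial_pred (by omega)).symm
      have hp : (∏ i, ((α i)! : ℂ)) = ((α 0)! : ℂ) * ∏ i, ((α' i)! : ℂ) := Fin.prod_univ_succ _
      have he : ∑ i, α i + (d + 1) - 1 = ∑ i, α' i + α 0 + d := by omega
      rw [he, hd', hp]
      simp only [ENNReal.toReal_inv, ENNReal.toReal_natCast, Complex.real_smul, Complex.ofReal_inv,
        Complex.ofReal_natCast]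
      field_simp
    · rw [if_neg hc, if_neg (fun hh => hc (hab.1 hh))]
      simp
  · rw [if_neg h0, if_neg (fun hh => h0 (by rw [hh]))]
    simp

theorem exists_mom_measure (d : ℕ) (hd : 1 ≤ d) (N : ℕ) :
    ∃ μ : Measure (USph d), IsFiniteMeasure μ ∧ HasMom d N μ := by
  induction d, hd using Nat.le_induction with
  | base => exact hasMom_one N
  | succ d hd ih =>
    obtain ⟨μ, hμ, h⟩ := ih
    exact hasMom_step d N hd μ h

/-- moments, for every `d ≥ 1` -/
theorem exists_moment' (d : ℕ) (hd : 1 ≤ d) (N : ℕ) :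
    ∃ E : C(USph d, ℂ) →ₗ[ℂ] ℂ, (∀ f : C(USph d, ℂ), (∀ z, 0 ≤ f z) → 0 ≤ E f) ∧
      ∀ α β : Fin d → ℕ, ∑ i, α i ≤ N → ∑ i, α i = ∑ i, β i →
        E (mono α * star (mono β)) =
          if α = β then (∏ i, ((α i)! : ℂ)) * ((d - 1)! : ℂ) / ((∑ i, α i + d - 1)! : ℂ)
          else 0 := by
  obtain ⟨μ, hμ, h⟩ := exists_mom_measure d hd N
  refine ⟨{ toFun := fun f => ∫ z, f z ∂μ, map_add' := ?_, map_smul' := ?_ }, ?_, h⟩
  · intro f g
    exact integral_add (integrable_cont f μ) (integrable_cont g μ)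
  · intro c f
    exact integral_const_mul c _
  · intro f hf
    have : ∀ z, f z = ((f z).re : ℂ) := fun z => by
      have := hf z
      rw [Complex.nonneg_iff] at this
      apply Complex.ext
      · simp
      · simp [this.2.symm]
    show 0 ≤ ∫ z, f z ∂μ
    rw [integral_congr_ae (Filter.Eventually.of_forall this), integral_complex_ofReal]
    have h0 : 0 ≤ ∫ z, (f z).re ∂μ := integral_nonneg fun z => (Complex.nonneg_iff.1 (hf z)).1
    exact_mod_cast h0

theorem exists_moment (d : ℕ) (hd : d = 2 ∨ d = 3) (N : ℕ) :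
    ∃ E : C(USph d, ℂ) →ₗ[ℂ] ℂ, (∀ f : C(USph d, ℂ), (∀ z, 0 ≤ f z) → 0 ≤ E f) ∧
      ∀ α β : Fin d → ℕ, ∑ i, α i ≤ N → ∑ i, α i = ∑ i, β i →
        E (mono α * star (mono β)) =
          if α = β then (∏ i, ((α i)! : ℂ)) * ((d - 1)! : ℂ) / ((∑ i, α i + d - 1)! : ℂ)
          else 0 := exists_moment' d (by omega) N

end Pool.Agent.Helper75.KT
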