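import Mathlib
import Pool.Agent.Helper24.Seg.Stmts

/-! P1 for MP_e9c934_an (helper24): the generic-path gluing theorem. -/

open Set Filter Topology Module MeasureTheory

namespace Seg

section generic

variable {V : Type} [NormedAddCommGroup V] [InnerProductSpace ℝ V] [FiniteDimensional ℝ V]
variable {κ : Type} [Countable κ]

omit [FiniteDimensional ℝ V] in
theorem span_insert_ne_top (T : AffineSubspace ℝ V) (hT : finrank ℝ T.direction + 2 ≤ finrank ℝ V)
    (x : V) : affineSpan ℝ (insert x (T : Set V)) ≠ ⊤ := by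
  intro h
  have h1 := finrank_vectorSpan_insert_le T x
  rw [← direction_affineSpan, h, AffineSubspace.direction_top, finrank_top] at h1
  omega

omit [FiniteDimensional ℝ V] in
theorem segment_avoid (T : AffineSubspace ℝ V) (x z : V) (hx : x ∉ T)
    (hz : z ∉ affineSpan ℝ (insert x (T : Set V))) : ∀ p ∈ segment ℝ x z, p ∉ T := by
  intro p hp hpT
  obtain ⟨t, ht, rfl⟩ := (segment_eq_image_lineMap ℝ x z ▸ hp : p ∈ AffineMap.lineMap x z '' Icc (0:ℝ) 1)
  have ht0 : t ≠ 0 := by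
    rintro rfl
    rw [AffineMap.lineMap_apply_zero] at hpT
    exact hx hpT
  apply hz
  have hx' : x ∈ affineSpan ℝ (insert x (T : Set V)) := mem_affineSpan ℝ (mem_insert _ _)
  have hp' : AffineMap.lineMap x z t ∈ affineSpan ℝ (insert x (T : Set V)) :=
    mem_affineSpan ℝ (mem_insert_of_mem _ hpT)
  have h := AffineMap.lineMap_mem t⁻¹ hx' hp'
  have : AffineMap.lineMap x (AffineMap.lineMap x z t) t⁻¹ = z := by
    simp only [AffineMap.lineMap_apply, vsub_eq_sub, vadd_eq_add]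
    rw [add_sub_cancel_right, smul_smul, inv_mul_cancel₀ ht0, one_smul, sub_add_cancel]
  rwa [this] at h

/-- generic points reachable by generic segments from two generic points are dense -/
theorem exists_generic (S : κ → AffineSubspace ℝ V)
    (hS : ∀ k, finrank ℝ (S k).direction + 2 ≤ finrank ℝ V) (x y : V)
    (hx : ∀ k, x ∉ S k) (hy : ∀ k, y ∉ S k) (O : Set V) (hO : IsOpen O) (hne : O.Nonempty) :
    ∃ z ∈ O, (∀ p ∈ segment ℝ x z, ∀ k, p ∉ S k) ∧ (∀ p ∈ segment ℝ y z, ∀ k, p ∉ S k) := by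
  let : MeasurableSpace V := borel V
  have : BorelSpace V := ⟨rfl⟩
  let μ : Measure V := Measure.addHaar
  let N : Set V := (⋃ k, (affineSpan ℝ (insert x (S k : Set V)) : Set V)) ∪
    ⋃ k, (affineSpan ℝ (insert y (S k : Set V)) : Set V)
  have hN : μ N = 0 := by
    refine measure_union_null (measure_iUnion_null fun k => ?_) (measure_iUnion_null fun k => ?_)
    · exact Measure.addHaar_affineSubspace μ _ (span_insert_ne_top _ (hS k) x)
    · exact Measure.addHaar_affineSubspace μ _ (span_insert_ne_top _ (hS k) y)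
  have hpos : 0 < μ O := hO.measure_pos μ hne
  have : ¬ O ⊆ N := fun h => by
    have := measure_mono_null h hN
    exact hpos.ne' this
  obtain ⟨z, hzO, hzN⟩ := Set.not_subset.1 this
  refine ⟨z, hzO, fun p hp k => ?_, fun p hp k => ?_⟩
  · exact segment_avoid (S k) x z (hx k) (fun h => hzN (Or.inl (mem_iUnion.2 ⟨k, h⟩))) p hp
  · exact segment_avoid (S k) y z (hy k) (fun h => hzN (Or.inr (mem_iUnion.2 ⟨k, h⟩))) p hp

end generic

/-- the combinatorial data of the gluing theorem -/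
structure Cplx (V ι J κ : Type) [NormedAddCommGroup V] [InnerProductSpace ℝ V]
    [FiniteDimensional ℝ V] where
  S : κ → AffineSubspace ℝ V
  hS : ∀ k, finrank ℝ (S k).direction + 2 ≤ finrank ℝ V
  act : ι → J → Prop
  ℓ : ι → J → V →ᵃ[ℝ] ℝ
  hint : ∀ i, ∃ c, ∀ j, act i j → 0 < ℓ i j c
  hedge : ∀ i j j', act i j → act i j' → j ≠ j' → ∀ x, ℓ i j x = 0 → ℓ i j' x = 0 →
      ∃ k, x ∈ S k
  hfin : ∀ x, (∀ k, x ∉ S k) → ∃ U ∈ 𝓝 x, {i | ∃ y ∈ U, ∀ j, act i j → 0 ≤ ℓ i j y}.Finite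
  σ : ι → J → ι × J
  hσ0 : ∀ i j, act i j → act (σ i j).1 (σ i j).2
  hσ1 : ∀ i j, act i j → (σ i j).1 ≠ i
  hσ2 : ∀ i j, act i j → σ (σ i j).1 (σ i j).2 = (i, j)
  hσ3 : ∀ i j, act i j → ∃ c : ℝ, 0 < c ∧ ∀ x, ℓ (σ i j).1 (σ i j).2 x = - c * ℓ i j x
  hσ4 : ∀ i j x, act i j → ℓ i j x = 0 → (∀ j', act i j' → 0 ≤ ℓ i j' x) →
      (∀ j', act (σ i j).1 j' → 0 ≤ ℓ (σ i j).1 j' x)

namespace Cplx

variable {V ι J κ : Type} [NormedAddCommGroup V] [InnerProductSpace ℝ V]
    [FiniteDimensional ℝ V] (D : Cplx V ι J κ)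

/-- generic points -/
def G : Set V := {x | ∀ k, x ∉ D.S k}

def Cell (i : ι) : Set V := {x | ∀ j, D.act i j → 0 ≤ D.ℓ i j x}

def ICell (i : ι) : Set V := {x | ∀ j, D.act i j → 0 < D.ℓ i j x}

theorem icell_sub (i : ι) : D.ICell i ⊆ D.Cell i := fun _ h j hj => (h j hj).le

theorem cont (i : ι) (j : J) : Continuous (D.ℓ i j) := (D.ℓ i j).continuous_of_finiteDimensional

theorem isClosed_cell (i : ι) : IsClosed (D.Cell i) := by
  have : D.Cell i = ⋂ j, ⋂ (_ : D.act i j), {x | 0 ≤ D.ℓ i j x} := by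
    ext x; simp [Cell]
  rw [this]
  exact isClosed_iInter fun j => isClosed_iInter fun _ => isClosed_le continuous_const (D.cont i j)

theorem isOpen_icell [Finite J] (i : ι) : IsOpen (D.ICell i) := by
  have : D.ICell i = ⋂ j, {x | D.act i j → 0 < D.ℓ i j x} := by
    ext x; simp [ICell]
  rw [this]
  refine isOpen_iInter_of_finite fun j => ?_
  by_cases h : D.act i j
  · simpa [h] using isOpen_lt continuous_const (D.cont i j)
  · simp [h]

/-- facet index is unique at a generic point -/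
theorem facet_unique {x : V} (hx : x ∈ D.G) {i : ι} {j j' : J} (hj : D.act i j)
    (hj' : D.act i j') (h : D.ℓ i j x = 0) (h' : D.ℓ i j' x = 0) : j = j' := by
  by_contra hne
  obtain ⟨k, hk⟩ := D.hedge i j j' hj hj' hne x h h'
  exact hx k hk

open Classical in
/-- partner cell at the point `x` -/
noncomputable def τ (x : V) (i : ι) : ι :=
  if h : ∃ j, D.act i j ∧ D.ℓ i j x = 0 then (D.σ i h.choose).1 else i

theorem τ_of {x : V} (hx : x ∈ D.G) {i : ι} {j : J} (hj : D.act i j) (h0 : D.ℓ i j x = 0) :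
    D.τ x i = (D.σ i j).1 := by
  have h : ∃ j, D.act i j ∧ D.ℓ i j x = 0 := ⟨j, hj, h0⟩
  rw [τ, dif_pos h, D.facet_unique hx h.choose_spec.1 hj h.choose_spec.2 h0]

theorem τ_of_not {x : V} {i : ι} (h : ¬ ∃ j, D.act i j ∧ D.ℓ i j x = 0) :
    D.τ x i = i := by rw [τ, dif_neg h]

theorem partner_zero {x : V} {i : ι} {j : J} (hj : D.act i j) (h0 : D.ℓ i j x = 0) :
    D.ℓ (D.σ i j).1 (D.σ i j).2 x = 0 := by
  obtain ⟨c, _, hc⟩ := D.hσ3 i j hj
  rw [hc, h0, mul_zero]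

theorem τ_τ {x : V} (hx : x ∈ D.G) (i : ι) : D.τ x (D.τ x i) = i := by
  by_cases h : ∃ j, D.act i j ∧ D.ℓ i j x = 0
  · obtain ⟨j, hj, h0⟩ := h
    rw [D.τ_of hx hj h0, D.τ_of hx (D.hσ0 i j hj) (D.partner_zero hj h0), D.hσ2 i j hj]
  · rw [D.τ_of_not h, D.τ_of_not h]

theorem τ_mem {x : V} (hx : x ∈ D.G) {i : ι} (hi : x ∈ D.Cell i) : x ∈ D.Cell (D.τ x i) := by
  by_cases h : ∃ j, D.act i j ∧ D.ℓ i j x = 0
  · obtain ⟨j, hj, h0⟩ := h
    rw [D.τ_of hx hj h0]
    exact D.hσ4 i j x hj h0 hi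
  · rw [D.τ_of_not h]; exact hi

theorem finite_cells {x : V} (hx : x ∈ D.G) : {i | x ∈ D.Cell i}.Finite := by
  obtain ⟨U, hU, hf⟩ := D.hfin x hx
  exact hf.subset fun i hi => ⟨x, mem_of_mem_nhds hU, hi⟩

open Classical in
/-- the local weight of a cell -/
noncomputable def w (i : ι) (y : V) : ℕ :=
  (if y ∈ D.Cell i then 1 else 0) + (if y ∈ D.ICell i then 1 else 0)

/-- the total weight -/
noncomputable def W (y : V) : ℕ := {i | y ∈ D.Cell i}.ncard + {i | y ∈ D.ICell i}.ncard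

theorem W_eq_sum (s : Finset ι) (y : V) (h : ∀ i, y ∈ D.Cell i → i ∈ s) :
    D.W y = ∑ i ∈ s, D.w i y := by
  classical
  unfold W w
  rw [Finset.sum_add_distrib, ← Finset.card_filter, ← Finset.card_filter,
    ← Set.ncard_coe_finset, ← Set.ncard_coe_finset]
  congr 2
  · ext i; simpa using h i
  · ext i; simpa using fun hi => h i (D.icell_sub i hi)

/-- near `x`, only cells through `x` -/
theorem eventually_cells {x : V} (hx : x ∈ D.G) :
    ∀ᶠ y in 𝓝 x, ∀ i, y ∈ D.Cell i → x ∈ D.Cell i := by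
  obtain ⟨U, hU, hf⟩ := D.hfin x hx
  have h1 : ∀ᶠ y in 𝓝 x, ∀ i ∈ {i | ∃ y ∈ U, ∀ j, D.act i j → 0 ≤ D.ℓ i j y},
      x ∉ D.Cell i → y ∉ D.Cell i := by
    rw [hf.eventually_all]
    intro i _
    by_cases h : x ∈ D.Cell i
    · simp [h]
    · filter_upwards [(D.isClosed_cell i).isOpen_compl.mem_nhds h] with y hy _ using hy
  filter_upwards [hU, h1] with y hyU hy i hi
  by_contra hxi
  exact hy i ⟨y, hyU, hi⟩ hxi hi

theorem eventually_pos [Finite J] {x : V} (i : ι) :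
    ∀ᶠ y in 𝓝 x, ∀ j, 0 < D.ℓ i j x → 0 < D.ℓ i j y := by
  rw [eventually_all]
  intro j
  by_cases h : 0 < D.ℓ i j x
  · filter_upwards [(isOpen_lt continuous_const (D.cont i j)).mem_nhds h] with y hy _ using hy
  · simp [h]

theorem mem_cell_iff_of_facet {x y : V} (hx : x ∈ D.G) {i : ι} (hi : x ∈ D.Cell i) {j : J}
    (hj : D.act i j) (h0 : D.ℓ i j x = 0) (hy : ∀ j, 0 < D.ℓ i j x → 0 < D.ℓ i j y) :
    (y ∈ D.Cell i ↔ 0 ≤ D.ℓ i j y) ∧ (y ∈ D.ICell i ↔ 0 < D.ℓ i j y) := by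
  have key : ∀ j', D.act i j' → j' ≠ j → 0 < D.ℓ i j' y := by
    intro j' hj' hne
    apply hy
    refine lt_of_le_of_ne (hi j' hj') fun h => hne ?_
    exact D.facet_unique hx hj' hj h.symm h0
  constructor
  · refine ⟨fun h => h j hj, fun h j' hj' => ?_⟩
    by_cases hjj : j' = j
    · subst hjj; exact h
    · exact (key j' hj' hjj).le
  · refine ⟨fun h => h j hj, fun h j' hj' => ?_⟩
    by_cases hjj : j' = j
    · subst hjj; exact h
    · exact key j' hj' hjj

/-- the pair weight is locally constant -/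
theorem pair_weight {x y : V} (hx : x ∈ D.G) {i : ι} (hi : x ∈ D.Cell i)
    (hy : ∀ j, 0 < D.ℓ i j x → 0 < D.ℓ i j y)
    (hy' : ∀ j, 0 < D.ℓ (D.τ x i) j x → 0 < D.ℓ (D.τ x i) j y) :
    D.w i y + D.w (D.τ x i) y = D.w i x + D.w (D.τ x i) x := by
  classical
  by_cases h : ∃ j, D.act i j ∧ D.ℓ i j x = 0
  · obtain ⟨j, hj, h0⟩ := h
    have hτ := D.τ_of hx hj h0
    have hi' := D.τ_mem hx hi
    rw [hτ] at hi' hy' ⊢
    obtain ⟨c, hc0, hc⟩ := D.hσ3 i j hj
    have hz := D.partner_zero hj h0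
    have hj' := D.hσ0 i j hj
    have key : ∀ z, (∀ j, 0 < D.ℓ i j x → 0 < D.ℓ i j z) →
        (∀ j', 0 < D.ℓ (D.σ i j).1 j' x → 0 < D.ℓ (D.σ i j).1 j' z) →
        D.w i z + D.w (D.σ i j).1 z = 2 := by
      intro z hz1 hz2
      obtain ⟨a1, a2⟩ := D.mem_cell_iff_of_facet hx hi hj h0 hz1
      obtain ⟨b1, b2⟩ := D.mem_cell_iff_of_facet hx hi' hj' hz hz2
      unfold w
      simp only [a1, a2, b1, b2]
      rcases lt_trichotomy (D.ℓ i j z) 0 with h1 | h1 | h1
      · have : 0 < D.ℓ (D.σ i j).1 (D.σ i j).2 z := by rw [hc]; nlinarith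
        simp [h1.not_ge, h1.not_gt, this, this.le]
      · have : D.ℓ (D.σ i j).1 (D.σ i j).2 z = 0 := by rw [hc, h1, mul_zero]
        simp [h1, this]
      · have : D.ℓ (D.σ i j).1 (D.σ i j).2 z < 0 := by rw [hc]; nlinarith
        simp [h1, h1.le, this.not_ge, this.not_gt]
    rw [key y hy hy', key x (fun _ h => h) (fun _ h => h)]
  · have hxI : x ∈ D.ICell i := fun j hj => lt_of_le_of_ne (hi j hj) fun h' =>
      h ⟨j, hj, h'.symm⟩
    have hyI : y ∈ D.ICell i := fun j hj => hy j (hxI j hj)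
    rw [D.τ_of_not h]
    unfold w
    simp [hxI, hyI, hi, D.icell_sub i hyI]

theorem W_locally_const [Finite J] {x : V} (hx : x ∈ D.G) : ∀ᶠ y in 𝓝 x, D.W y = D.W x := by
  classical
  have hfin := D.finite_cells hx
  set s := hfin.toFinset with hs
  have hmem : ∀ i, i ∈ s ↔ x ∈ D.Cell i := fun i => by simp [hs]
  have h1 : ∀ᶠ y in 𝓝 x, ∀ i ∈ s, ∀ j, 0 < D.ℓ i j x → 0 < D.ℓ i j y := by
    rw [Finset.eventually_all]
    exact fun i _ => D.eventually_pos i
  filter_upwards [D.eventually_cells hx, h1] with y hy1 hy2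
  have hτs : ∀ i ∈ s, D.τ x i ∈ s := fun i hi => (hmem _).2 (D.τ_mem hx ((hmem i).1 hi))
  rw [D.W_eq_sum s y fun i hi => (hmem i).2 (hy1 i hi), D.W_eq_sum s x fun i hi => (hmem i).2 hi]
  have hperm : ∀ z, ∑ i ∈ s, D.w (D.τ x i) z = ∑ i ∈ s, D.w i z := fun z =>
    Finset.sum_nbij' (D.τ x) (D.τ x) hτs hτs (fun i _ => D.τ_τ hx i) (fun i _ => D.τ_τ hx i)
      (fun i _ => rfl)
  have h2 : ∑ i ∈ s, (D.w i y + D.w (D.τ x i) y) = ∑ i ∈ s, (D.w i x + D.w (D.τ x i) x) :=
    Finset.sum_congr rfl fun i hi =>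
      D.pair_weight hx ((hmem i).1 hi) (hy2 i hi) (hy2 _ (hτs i hi))
  rw [Finset.sum_add_distrib, Finset.sum_add_distrib, hperm, hperm] at h2
  omega

theorem W_segment [Finite J] {a b : V} (h : ∀ p ∈ segment ℝ a b, p ∈ D.G) : D.W a = D.W b := by
  refine (convex_segment a b).isPreconnected.induction₂' (fun p q => D.W p = D.W q) ?_ ?_
    (left_mem_segment ℝ a b) (right_mem_segment ℝ a b)
  · intro p hp
    exact eventually_nhdsWithin_of_eventually_nhds
      ((D.W_locally_const (h p hp)).mono fun q hq => ⟨hq.symm, hq⟩)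
  · intro p q r _ _ _ h1 h2
    exact h1.trans h2

theorem W_const [Finite J] [Countable κ] {a b : V} (ha : a ∈ D.G) (hb : b ∈ D.G) :
    D.W a = D.W b := by
  obtain ⟨z, -, h1, h2⟩ := exists_generic D.S D.hS a b ha hb univ isOpen_univ ⟨a, trivial⟩
  rw [D.W_segment fun p hp => h1 p hp, D.W_segment fun p hp => h2 p hp]

/-- the base point condition gives total weight two -/
theorem W_base {x₀ : V} (hu : ∃! i, x₀ ∈ D.Cell i) : D.W x₀ = 2 := by
  obtain ⟨i, hi, hun⟩ := hu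
  have hI : x₀ ∈ D.ICell i := by
    intro j hj
    refine lt_of_le_of_ne (hi j hj) fun h => ?_
    exact D.hσ1 i j hj (hun _ (D.hσ4 i j x₀ hj h.symm hi))
  have h1 : {i | x₀ ∈ D.Cell i} = {i} := by
    ext i'; exact ⟨fun h => hun i' h, fun h => by rw [mem_singleton_iff.1 h]; exact hi⟩
  have h2 : {i | x₀ ∈ D.ICell i} = {i} := by
    ext i'; exact ⟨fun h => hun i' (D.icell_sub i' h), fun h => by
      rw [mem_singleton_iff.1 h]; exact hI⟩
  unfold W
  rw [h1, h2, ncard_singleton]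

variable [Finite J] [Countable κ] {x₀ : V} (h0 : x₀ ∈ D.G) (hu : ∃! i, x₀ ∈ D.Cell i)

include h0 hu

theorem W_two {x : V} (hx : x ∈ D.G) : D.W x = 2 := by
  rw [D.W_const hx h0, D.W_base hu]

theorem covered {x : V} (hx : x ∈ D.G) : ∃ i, x ∈ D.Cell i := by
  by_contra h
  push Not at h
  have h1 : {i | x ∈ D.Cell i} = ∅ := by ext i; simp [h i]
  have h2 : {i | x ∈ D.ICell i} = ∅ := by
    ext i; simp only [mem_ofPred_eq, mem_empty_iff_false, iff_false]
    exact fun h' => h i (D.icell_sub i h')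
  have := D.W_two h0 hu hx
  unfold W at this
  rw [h1, h2, ncard_empty] at this
  omega

/-- a generic point in the interior of a cell is in no other cell -/
theorem unique_of_interior {x : V} (hx : x ∈ D.G) {i i' : ι} (hi : x ∈ D.ICell i)
    (hi' : x ∈ D.Cell i') : i' = i := by
  by_contra hne
  have hfin := D.finite_cells hx
  have h1 : 2 ≤ {i | x ∈ D.Cell i}.ncard := by
    have : ({i, i'} : Set ι) ⊆ {i | x ∈ D.Cell i} := by
      intro a ha
      rcases ha with rfl | ha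
      · exact D.icell_sub _ hi
      · rw [mem_singleton_iff.1 ha]; exact hi'
    rw [← ncard_pair (Ne.symm hne)]
    exact ncard_le_ncard this hfin
  have h2 : 1 ≤ {i | x ∈ D.ICell i}.ncard := by
    exact (ncard_pos (hfin.subset fun i h => D.icell_sub i h)).2 ⟨i, hi⟩
  have := D.W_two h0 hu hx
  unfold W at this
  omega

/-- a generic point on a facet is in exactly two cells -/
theorem of_facet {x : V} (hx : x ∈ D.G) {i i' : ι} {j : J} (hj : D.act i j)
    (hi : x ∈ D.Cell i) (hz : D.ℓ i j x = 0) (hi' : x ∈ D.Cell i') :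
    i' = i ∨ i' = (D.σ i j).1 := by
  by_contra hne
  push Not at hne
  have hfin := D.finite_cells hx
  have hp : x ∈ D.Cell (D.σ i j).1 := D.hσ4 i j x hj hz hi
  have h1 : 3 ≤ {i | x ∈ D.Cell i}.ncard := by
    have : ({i', i, (D.σ i j).1} : Set ι) ⊆ {i | x ∈ D.Cell i} := by
      intro a ha
      rcases ha with rfl | rfl | ha
      · exact hi'
      · exact hi
      · rw [mem_singleton_iff.1 ha]; exact hp
    have h3 : ({i', i, (D.σ i j).1} : Set ι).ncard = 3 :=
      ncard_eq_three.2 ⟨_, _, _, hne.1, hne.2, (D.hσ1 i j hj).symm, rfl⟩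
    rw [← h3]
    exact ncard_le_ncard this hfin
  have := D.W_two h0 hu hx
  unfold W at this
  omega

/-- (c) -/
theorem interior_disjoint (i i' : ι) (x : V) (hi : x ∈ D.ICell i) (hi' : x ∈ D.Cell i') :
    i = i' := by
  obtain ⟨c, hc⟩ := D.hint i'
  -- points `x + t (c - x)` with small `t > 0` are interior in both cells
  have hcont : Continuous fun t : ℝ => AffineMap.lineMap x c t := AffineMap.lineMap_continuous
  have h1 : ∀ᶠ t in 𝓝[>] (0:ℝ), AffineMap.lineMap x c t ∈ D.ICell i := by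
    have : ∀ᶠ t in 𝓝 (0:ℝ), AffineMap.lineMap x c t ∈ D.ICell i :=
      hcont.continuousAt.eventually_mem (by
        simpa using (D.isOpen_icell i).mem_nhds hi)
    exact this.filter_mono nhdsWithin_le_nhds
  have h2 : ∀ᶠ t in 𝓝[>] (0:ℝ), t ≤ 1 :=
    (eventually_le_nhds (by norm_num : (0:ℝ) < 1)).filter_mono nhdsWithin_le_nhds
  obtain ⟨t, ht1, ht2, ht0⟩ := (h1.and (h2.and self_mem_nhdsWithin)).exists
  have ht0' : 0 < t := ht0
  have h3 : AffineMap.lineMap x c t ∈ D.ICell i' := by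
    intro j hj
    rw [AffineMap.apply_lineMap, AffineMap.lineMap_apply_ring']
    have a1 := hi' j hj
    have a2 := hc j hj
    nlinarith
  obtain ⟨z, hz, -, h4⟩ := exists_generic D.S D.hS x₀ x₀ h0 h0 (D.ICell i ∩ D.ICell i')
    ((D.isOpen_icell i).inter (D.isOpen_icell i')) ⟨_, ht1, h3⟩
  exact (D.unique_of_interior h0 hu (fun k => h4 z (right_mem_segment ℝ x₀ z) k) hz.1
    (D.icell_sub _ hz.2)).symm

section maps

variable {F : Type} [PseudoMetricSpace F] (A : ι → V → F) (L : NNReal)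
  (hA : ∀ i, LipschitzWith L (A i))
  (hAσ : ∀ i j x, D.act i j → D.ℓ i j x = 0 → x ∈ D.Cell i → A i x = A (D.σ i j).1 x)

include hAσ

theorem well_def {x : V} (hx : x ∈ D.G) {i i' : ι} (hi : x ∈ D.Cell i) (hi' : x ∈ D.Cell i') :
    A i x = A i' x := by
  by_cases h : ∃ j, D.act i j ∧ D.ℓ i j x = 0
  · obtain ⟨j, hj, hz⟩ := h
    rcases D.of_facet h0 hu hx hj hi hz hi' with rfl | rfl
    · rfl
    · exact hAσ i j x hj hz hi
  · have hxI : x ∈ D.ICell i := fun j hj => lt_of_le_of_ne (hi j hj) fun h' =>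
      h ⟨j, hj, h'.symm⟩
    rw [D.unique_of_interior h0 hu hx hxI hi']

include hA

theorem local_lip {x : V} (hx : x ∈ D.G) :
    ∀ᶠ y in 𝓝 x, ∀ i i', x ∈ D.Cell i → y ∈ D.Cell i' → dist (A i x) (A i' y) ≤ L * dist x y := by
  filter_upwards [D.eventually_cells hx] with y hy i i' hi hi'
  rw [D.well_def h0 hu A hAσ hx hi (hy i' hi')]
  exact (hA i').dist_le_mul x y

theorem seg_lip {a b : V} (h : ∀ p ∈ segment ℝ a b, p ∈ D.G) {i i' : ι} (hi : a ∈ D.Cell i)
    (hi' : b ∈ D.Cell i') : dist (A i a) (A i' b) ≤ L * dist a b := by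
  classical
  let f : V → F := fun x => if h : ∃ i, x ∈ D.Cell i then A h.choose x else A i x
  have hf : ∀ x ∈ D.G, ∀ i, x ∈ D.Cell i → f x = A i x := by
    intro x hx i hi
    have h : ∃ i, x ∈ D.Cell i := ⟨i, hi⟩
    simp only [f, dif_pos h]
    exact D.well_def h0 hu A hAσ hx h.choose_spec hi
  have hloc : ∀ x ∈ D.G, ∀ᶠ y in 𝓝 x, y ∈ D.G → dist (f x) (f y) ≤ L * dist x y := by
    intro x hx
    filter_upwards [D.local_lip h0 hu A L hA hAσ hx] with y hy hyG
    obtain ⟨i1, h1⟩ := D.covered h0 hu hx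
    obtain ⟨i2, h2⟩ := D.covered h0 hu hyG
    rw [hf x hx i1 h1, hf y hyG i2 h2]
    exact hy i1 i2 h1 h2
  have ha : a ∈ D.G := h a (left_mem_segment ℝ a b)
  have hb : b ∈ D.G := h b (right_mem_segment ℝ a b)
  rw [← hf a ha i hi, ← hf b hb i' hi']
  let p : ℝ → V := fun t => AffineMap.lineMap a b t
  have hp : Continuous p := AffineMap.lineMap_continuous
  have hpG : ∀ t ∈ Icc (0:ℝ) 1, p t ∈ D.G := fun t ht =>
    h _ (segment_eq_image_lineMap ℝ a b ▸ mem_image_of_mem _ ht)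
  have hdist : ∀ s t, dist (p s) (p t) = |s - t| * dist a b := by
    intro s t
    simp only [p, dist_lineMap_lineMap, Real.dist_eq]
  have hloc' : ∀ t ∈ Icc (0:ℝ) 1, ∀ᶠ s in 𝓝[Icc (0:ℝ) 1] t,
      dist (f (p t)) (f (p s)) ≤ L * (|t - s| * dist a b) := by
    intro t ht
    have h1 := (hp.tendsto t).eventually (hloc (p t) (hpG t ht))
    filter_upwards [nhdsWithin_le_nhds h1, self_mem_nhdsWithin] with s hs hsI
    rw [← hdist]
    exact hs (hpG s hsI)
  have hcont : ContinuousOn (fun t => f (p t)) (Icc (0:ℝ) 1) := by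
    intro t ht
    rw [ContinuousWithinAt, tendsto_iff_dist_tendsto_zero]
    have h2 : Tendsto (fun s => L * (|t - s| * dist a b)) (𝓝[Icc (0:ℝ) 1] t) (𝓝 0) := by
      have : Continuous fun s : ℝ => (L:ℝ) * (|t - s| * dist a b) := by fun_prop
      have h3 := (this.tendsto t).mono_left (nhdsWithin_le_nhds (s := Icc (0:ℝ) 1))
      simpa using h3
    refine squeeze_zero' (Eventually.of_forall fun s => dist_nonneg) ?_ h2
    filter_upwards [hloc' t ht] with s hs
    rw [dist_comm]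
    exact hs
  have hclosed : IsClosed ({t : ℝ | dist (f a) (f (p t)) ≤ L * (t * dist a b)} ∩ Icc (0:ℝ) 1) := by
    have h3 := isClosed_Icc.isClosed_le (f := fun t => dist (f a) (f (p t)))
      (g := fun t : ℝ => (L:ℝ) * (t * dist a b)) (s := Icc (0:ℝ) 1)
      (continuous_dist.comp_continuousOn (continuousOn_const.prodMk hcont)) (by fun_prop)
    convert h3 using 1
    ext t
    simp [and_comm]
  have hsub := hclosed.Icc_subset_of_forall_exists_gt (a := 0) (b := 1)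
    (by simp [p]) ?_
  · have := hsub (right_mem_Icc.2 zero_le_one)
    simpa [p] using this
  · rintro t ⟨ht, ht0, ht1⟩ y hy
    have ht' : t ∈ Icc (0:ℝ) 1 := ⟨ht0, ht1.le⟩
    have h4 : ∀ᶠ s in 𝓝[>] t, s ∈ Icc (0:ℝ) 1 ∧
        dist (f (p t)) (f (p s)) ≤ L * (|t - s| * dist a b) := by
      have h5 := hloc' t ht'
      rw [eventually_nhdsWithin_iff] at h5
      have h6 : ∀ᶠ s in 𝓝[>] t, s ≤ 1 := (eventually_le_nhds ht1).filter_mono nhdsWithin_le_nhds
      filter_upwards [nhdsWithin_le_nhds h5, h6, self_mem_nhdsWithin] with s hs1 hs2 hs3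
      have hs3' : t < s := hs3
      have hsI : s ∈ Icc (0:ℝ) 1 := ⟨by linarith, hs2⟩
      exact ⟨hsI, hs1 hsI⟩
    have h7 : ∀ᶠ s in 𝓝[>] t, s ∈ Ioc t y := Ioc_mem_nhdsGT hy
    obtain ⟨s, ⟨hsI, hs⟩, hsy⟩ := (h4.and h7).exists
    refine ⟨s, ?_, hsy⟩
    have ht2 : dist (f a) (f (p t)) ≤ L * (t * dist a b) := ht
    have habs : |t - s| = s - t := by rw [abs_sub_comm, abs_of_pos (sub_pos.2 hsy.1)]
    rw [habs] at hs
    show dist (f a) (f (p s)) ≤ L * (s * dist a b)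
    calc dist (f a) (f (p s)) ≤ dist (f a) (f (p t)) + dist (f (p t)) (f (p s)) :=
          dist_triangle _ _ _
      _ ≤ L * (t * dist a b) + L * ((s - t) * dist a b) := add_le_add ht2 hs
      _ = L * (s * dist a b) := by ring

/-- generic points: `L`-Lipschitz -/
theorem lip_generic {x y : V} (hx : x ∈ D.G) (hy : y ∈ D.G) {i i' : ι} (hi : x ∈ D.Cell i)
    (hi' : y ∈ D.Cell i') : dist (A i x) (A i' y) ≤ L * dist x y := by
  refine le_of_forall_pos_le_add fun ε hε => ?_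
  obtain ⟨δ, hδ, hδε⟩ : ∃ δ : ℝ, 0 < δ ∧ (L : ℝ) * (2 * δ) ≤ ε := by
    refine ⟨ε / (2 * (L + 1)), by positivity, ?_⟩
    have hL : (0:ℝ) ≤ L := L.2
    rw [show (L:ℝ) * (2 * (ε / (2 * (L + 1)))) = ε * (L / (L + 1)) by field_simp]
    exact mul_le_of_le_one_right hε.le ((div_le_one (by positivity)).2 (by linarith))
  obtain ⟨z, hz, h1, h2⟩ := exists_generic D.S D.hS x y hx hy (Metric.ball x δ)
    Metric.isOpen_ball ⟨x, Metric.mem_ball_self hδ⟩
  have hzG : z ∈ D.G := fun k => h1 z (right_mem_segment ℝ x z) k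
  obtain ⟨i3, h3⟩ := D.covered h0 hu hzG
  have a1 := D.seg_lip h0 hu A L hA hAσ (fun p hp => h1 p hp) hi h3
  have a2 := D.seg_lip h0 hu A L hA hAσ (fun p hp => h2 p hp) hi' h3
  have hzx : dist z x < δ := hz
  have hL : (0:ℝ) ≤ L := L.2
  calc dist (A i x) (A i' y) ≤ dist (A i x) (A i3 z) + dist (A i' y) (A i3 z) :=
        dist_triangle_right _ _ _
    _ ≤ L * dist x z + L * dist y z := add_le_add a1 a2
    _ ≤ L * δ + L * (dist x y + δ) := by
        refine add_le_add (mul_le_mul_of_nonneg_left ?_ hL) (mul_le_mul_of_nonneg_left ?_ hL)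
        · rw [dist_comm]; exact hzx.le
        · calc dist y z ≤ dist y x + dist x z := dist_triangle _ _ _
            _ ≤ dist x y + δ := by rw [dist_comm y x, dist_comm x z]; linarith
    _ = L * dist x y + L * (2 * δ) := by ring
    _ ≤ L * dist x y + ε := by linarith

omit hA hAσ [PseudoMetricSpace F] hu in
/-- approximation of a point of a cell by generic interior points -/
theorem approx {x : V} {i : ι} (hi : x ∈ D.Cell i) {δ : ℝ} (hδ : 0 < δ) :
    ∃ z ∈ D.G, z ∈ D.Cell i ∧ dist z x < δ := by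
  obtain ⟨c, hc⟩ := D.hint i
  have hcont : Continuous fun t : ℝ => AffineMap.lineMap x c t := AffineMap.lineMap_continuous
  have h1 : ∀ᶠ t in 𝓝[>] (0:ℝ), AffineMap.lineMap x c t ∈ Metric.ball x δ := by
    have : ∀ᶠ t in 𝓝 (0:ℝ), AffineMap.lineMap x c t ∈ Metric.ball x δ :=
      hcont.continuousAt.eventually_mem (by
        simpa using Metric.ball_mem_nhds x hδ)
    exact this.filter_mono nhdsWithin_le_nhds
  have h2 : ∀ᶠ t in 𝓝[>] (0:ℝ), t ≤ 1 :=
    (eventually_le_nhds (by norm_num : (0:ℝ) < 1)).filter_mono nhdsWithin_le_nhds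
  obtain ⟨t, ht1, ht2, ht0⟩ := (h1.and (h2.and self_mem_nhdsWithin)).exists
  have ht0' : 0 < t := ht0
  have h3 : AffineMap.lineMap x c t ∈ D.ICell i := by
    intro j hj
    rw [AffineMap.apply_lineMap, AffineMap.lineMap_apply_ring']
    have a1 := hi j hj
    have a2 := hc j hj
    nlinarith
  obtain ⟨z, hz, -, h4⟩ := exists_generic D.S D.hS x₀ x₀ h0 h0 (D.ICell i ∩ Metric.ball x δ)
    ((D.isOpen_icell i).inter Metric.isOpen_ball) ⟨_, h3, ht1⟩
  exact ⟨z, fun k => h4 z (right_mem_segment ℝ x₀ z) k, D.icell_sub _ hz.1, hz.2⟩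

theorem lip_all (i i' : ι) (x y : V) (hi : x ∈ D.Cell i) (hi' : y ∈ D.Cell i') :
    dist (A i x) (A i' y) ≤ L * dist x y := by
  refine le_of_forall_pos_le_add fun ε hε => ?_
  obtain ⟨δ, hδ, hδε⟩ : ∃ δ : ℝ, 0 < δ ∧ (L : ℝ) * (4 * δ) ≤ ε := by
    refine ⟨ε / (4 * (L + 1)), by positivity, ?_⟩
    have hL : (0:ℝ) ≤ L := L.2
    rw [show (L:ℝ) * (4 * (ε / (4 * (L + 1)))) = ε * (L / (L + 1)) by field_simp]
    exact mul_le_of_le_one_right hε.le ((div_le_one (by positivity)).2 (by linarith))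
  obtain ⟨x', hx'G, hx', hdx⟩ := D.approx h0 hi hδ
  obtain ⟨y', hy'G, hy', hdy⟩ := D.approx h0 hi' hδ
  have hL : (0:ℝ) ≤ L := L.2
  have a1 := (hA i).dist_le_mul x x'
  have a2 := (hA i').dist_le_mul y' y
  have a3 := D.lip_generic h0 hu A L hA hAσ hx'G hy'G hx' hy'
  have hd : dist x' y' ≤ dist x y + 2 * δ := by
    calc dist x' y' ≤ dist x' x + dist x y + dist y y' := dist_triangle4 _ _ _ _
      _ ≤ dist x y + 2 * δ := by rw [dist_comm y y']; linarith
  calc dist (A i x) (A i' y) ≤ dist (A i x) (A i x') + dist (A i x') (A i' y') +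
        dist (A i' y') (A i' y) := dist_triangle4 _ _ _ _
    _ ≤ L * dist x x' + L * dist x' y' + L * dist y' y := by linarith
    _ ≤ L * δ + L * (dist x y + 2 * δ) + L * δ := by
        refine add_le_add (add_le_add (mul_le_mul_of_nonneg_left ?_ hL)
          (mul_le_mul_of_nonneg_left hd hL)) (mul_le_mul_of_nonneg_left hdy.le hL)
        rw [dist_comm]; exact hdx.le
    _ = L * dist x y + L * (4 * δ) := by ring
    _ ≤ L * dist x y + ε := by linarith

end maps

end Cplx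

/-- P1 -/
theorem glue : GlueStatement := by
  intro V _ _ _ F _ ι J κ _ _ _ S hS act ℓ hint hedge hfin σ hσ0 hσ1 hσ2 hσ3 hσ4 x₀ hx₀ hx₀u A L
    hA hAσ
  let D : Cplx V ι J κ := ⟨S, hS, act, ℓ, hint, hedge, hfin, σ, hσ0, hσ1, hσ2, hσ3, hσ4⟩
  refine ⟨fun x hx => D.covered (x₀ := x₀) hx₀ hx₀u hx, ?_, ?_⟩
  · intro i i' x y hx hy
    exact D.lip_all (x₀ := x₀) hx₀ hx₀u A L hA (fun i j x hj h0 hi => hAσ i j x hj h0 hi)
      i i' x y hx hy
  · intro i i' x hx hx'
    exact D.interior_disjoint (x₀ := x₀) hx₀ hx₀u i i' x hx hx'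

end Seg
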